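import Pool.Agent.H90.TC.Hex.Defs
import Pool.Agent.H90.SY.Defs

set_option autoImplicit false

/-!
Distances. `r : HV → V`, `inl v ↦ v`, `inr (a,c) ↦ a` maps adjacent elements to adjacent or equal ones:
so `G.dist u v ≤ (hexG G col).dist (inl u) (inl v)`. Conversely adjacent `u, v` in `G` are joined in
`hexG` by a walk of length at most 2: colours 1, 2: edge; colours 0, 2: over `(a,c)`; colours 0, 1:
over `(a,c)` with `c` from `pure` (`proper` gives its colour). Hence connectivity (a hypotenuse is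
adjacent to `inl a`) and `(hexG G col).dist (inl u) (inl v) ≤ 2 G.dist u v`.

`cover_pull`: the family of preimages; the colour of a preimage `P` is the colour of a chosen `U` in
the family with preimage `P`. If two different preimages have the same colour then the chosen
sets are different and have the same colour.
-/

namespace Pool.H90TC

open Pool.H90SY

universe u v

theorem cover_pull {X : Type u} {Y : Type v} (f : X → Y) (dX : X → X → ℕ) (dY : Y → Y → ℕ)
    (n R D R' D' : ℕ) (h1 : ∀ x y : X, dX x y ≤ R → dY (f x) (f y) ≤ R')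
    (h2 : ∀ x y : X, dY (f x) (f y) ≤ D' → dX x y ≤ D) (h : CoverAt dY n R' D') :
    CoverAt dX n R D := by
  classical
  obtain ⟨𝒰, c, hc, hd, hs⟩ := h
  let sel : Set X → Set Y := fun P => if h : ∃ U ∈ 𝒰, f ⁻¹' U = P then h.choose else ∅
  have hsel : ∀ P, (∃ U ∈ 𝒰, f ⁻¹' U = P) → sel P ∈ 𝒰 ∧ f ⁻¹' (sel P) = P := by
    intro P hP
    have h1 : sel P = hP.choose := by
      simp only [sel]
      rw [dif_pos hP]
    rw [h1]
    exact hP.choose_spec
  refine ⟨{P | ∃ U ∈ 𝒰, f ⁻¹' U = P}, fun P => c (sel P), ?_, ?_, ?_⟩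
  · intro x
    obtain ⟨U, hU, hx⟩ := hc (f x)
    exact ⟨f ⁻¹' U, ⟨U, hU, rfl⟩, hx⟩
  · rintro P ⟨U, hU, rfl⟩ x hx y hy
    exact h2 x y (hd U hU _ hx _ hy)
  · intro P hP Q hQ hPQ hcol x hx y hy
    obtain ⟨hP1, hP2⟩ := hsel P hP
    obtain ⟨hQ1, hQ2⟩ := hsel Q hQ
    have hne : sel P ≠ sel Q := by
      intro he
      apply hPQ
      rw [← hP2, ← hQ2, he]
    rw [← hP2] at hx
    rw [← hQ2] at hy
    have h3 := hs _ hP1 _ hQ1 hne hcol (f x) hx (f y) hy
    by_contra hlt
    push Not at hlt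
    exact absurd (h1 x y hlt) (by omega)

variable {V : Type u}

private theorem short_walk {G : SimpleGraph V} {col : V → Fin 3} (hT : Tri G col) {u v : V}
    (h : G.Adj u v) :
    ∃ w : (hexG G col).Walk (Sum.inl u) (Sum.inl v), w.length ≤ 2 := by
  have hne := hT.proper u v h
  have key : ∀ u v : V, G.Adj u v → col u = 0 → col v ≠ 0 → ∃ k : Hyp G col,
      (hexG G col).Adj (Sum.inl u) (Sum.inr k) ∧ (hexG G col).Adj (Sum.inr k) (Sum.inl v) := by
    intro u v h hu hv
    by_cases hv2 : col v = 2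
    · exact ⟨⟨(u, v), hu, hv2, h⟩, Or.inl rfl, Or.inr (Or.inl rfl)⟩
    · obtain ⟨w, hw1, hw2⟩ := hT.pure u v h
      have h1 := hT.proper u w hw1
      have h2 := hT.proper v w hw2
      have hw : col w = 2 := by omega
      have hv1 : col v = 1 := by omega
      exact ⟨⟨(u, w), hu, hw, hw1⟩, Or.inl rfl, Or.inr (Or.inr ⟨hv1, h.symm, hw2⟩)⟩
  by_cases hu : col u = 0
  · have hv : col v ≠ 0 := fun h0 => hne (hu.trans h0.symm)
    obtain ⟨k, hk1, hk2⟩ := key u v h hu hv
    exact ⟨SimpleGraph.Walk.cons hk1 (SimpleGraph.Walk.cons hk2 SimpleGraph.Walk.nil), by simp⟩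
  · by_cases hv : col v = 0
    · obtain ⟨k, hk1, hk2⟩ := key v u h.symm hv hu
      exact ⟨SimpleGraph.Walk.cons hk2.symm (SimpleGraph.Walk.cons hk1.symm
        SimpleGraph.Walk.nil), by simp⟩
    · have h1 : (hexG G col).Adj (Sum.inl u) (Sum.inl v) := ⟨h, hu, hv⟩
      exact ⟨SimpleGraph.Walk.cons h1 SimpleGraph.Walk.nil, by simp⟩

private theorem long_walk {G : SimpleGraph V} {col : V → Fin 3} (hT : Tri G col) {u v : V}
    (p : G.Walk u v) :
    ∃ w : (hexG G col).Walk (Sum.inl u) (Sum.inl v), w.length ≤ 2 * p.length := by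
  induction p with
  | nil => exact ⟨SimpleGraph.Walk.nil, by simp⟩
  | cons h p ih =>
    obtain ⟨w1, hw1⟩ := short_walk hT h
    obtain ⟨w2, hw2⟩ := ih
    refine ⟨w1.append w2, ?_⟩
    rw [SimpleGraph.Walk.length_append, SimpleGraph.Walk.length_cons]
    omega

theorem hex_conn {G : SimpleGraph V} {col : V → Fin 3} (hT : Tri G col) (hc : G.Connected) :
    (hexG G col).Connected := by
  have h1 : ∀ x : HV G col, ∃ u : V, (hexG G col).Reachable x (Sum.inl u) := by
    rintro (u | h)
    · exact ⟨u, SimpleGraph.Reachable.refl _⟩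
    · refine ⟨h.1.1, SimpleGraph.Adj.reachable ?_⟩
      exact Or.inl rfl
  haveI := hc.nonempty
  haveI : Nonempty (HV G col) := ⟨Sum.inl (Classical.arbitrary V)⟩
  refine SimpleGraph.Connected.mk ?_
  intro x y
  obtain ⟨u, hu⟩ := h1 x
  obtain ⟨v, hv⟩ := h1 y
  obtain ⟨p⟩ := hc.preconnected u v
  obtain ⟨w, _⟩ := long_walk hT p
  exact (hu.trans ⟨w⟩).trans hv.symm

theorem hex_dist_le {G : SimpleGraph V} {col : V → Fin 3} (hT : Tri G col) (hc : G.Connected)
    (u v : V) : (hexG G col).dist (Sum.inl u) (Sum.inl v) ≤ 2 * G.dist u v := by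
  obtain ⟨p, hp⟩ := hc.exists_walk_length_eq_dist u v
  obtain ⟨w, hw⟩ := long_walk hT p
  have h := SimpleGraph.dist_le w
  rw [hp] at hw
  exact h.trans hw

private def ret {G : SimpleGraph V} {col : V → Fin 3} : HV G col → V
  | Sum.inl u => u
  | Sum.inr h => h.1.1

private theorem ret_adj {G : SimpleGraph V} {col : V → Fin 3} (x y : HV G col)
    (h : (hexG G col).Adj x y) : G.dist (ret x) (ret y) ≤ 1 := by
  have key : ∀ (u : V) (h : Hyp G col), vh G col u h → G.dist u h.1.1 ≤ 1 := by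
    rintro u h (h1 | h1 | h1)
    · rw [h1, SimpleGraph.dist_self]
      omega
    · rw [h1]
      exact le_of_eq (SimpleGraph.dist_eq_one_iff_adj.2 h.2.2.2.symm)
    · exact le_of_eq (SimpleGraph.dist_eq_one_iff_adj.2 h1.2.1)
  rcases x with u | k <;> rcases y with v | l
  · exact le_of_eq (SimpleGraph.dist_eq_one_iff_adj.2 h.1)
  · exact key u l h
  · have := key v k h
    rw [SimpleGraph.dist_comm] at this
    exact this
  · have h1 : k.1.1 = l.1.1 := h.1
    show G.dist k.1.1 l.1.1 ≤ 1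
    rw [h1, SimpleGraph.dist_self]
    omega

private theorem ret_walk {G : SimpleGraph V} {col : V → Fin 3} (hc : G.Connected) {x y : HV G col}
    (p : (hexG G col).Walk x y) : G.dist (ret x) (ret y) ≤ p.length := by
  induction p with
  | nil => rw [SimpleGraph.dist_self]; omega
  | @cons a b c h p ih =>
    have h1 := ret_adj a b h
    have h2 := hc.dist_triangle (u := ret a) (v := ret b) (w := ret c)
    rw [SimpleGraph.Walk.length_cons]
    omega

theorem le_hex_dist {G : SimpleGraph V} {col : V → Fin 3} (hT : Tri G col) (hc : G.Connected)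
    (u v : V) : G.dist u v ≤ (hexG G col).dist (Sum.inl u) (Sum.inl v) := by
  obtain ⟨p, hp⟩ := (hex_conn hT hc).exists_walk_length_eq_dist (Sum.inl u) (Sum.inl v)
  have h := ret_walk hc p
  rw [hp] at h
  exact h

end Pool.H90TC
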