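import Pool.Agent.H90.TC.Tri
import Pool.Agent.H90.TC.Lines

set_option autoImplicit false

/-!
The hexagonal subdivision of a complex of type (2,3,6). Colours: 0 (angle 30), 1 (angle 90),
2 (angle 60). New vertices: the midpoints of the hypotenuses (edges between the colours 0 and 2).
The edges between the colours 0 and 1 are removed, midpoints of hypotenuses `(a,c)`, `(a,c')` are
joined if `a, b, c` and `a, b, c'` are triangles with the same long leg `a b`.
-/

namespace Pool.H90TC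

open Pool.H90SY

universe u

variable {V : Type u}

/-- the hypotenuses -/
def Hyp (G : SimpleGraph V) (col : V → Fin 3) : Type u :=
  {p : V × V // col p.1 = 0 ∧ col p.2 = 2 ∧ G.Adj p.1 p.2}

/-- the vertices of the subdivision -/
abbrev HV (G : SimpleGraph V) (col : V → Fin 3) : Type u := V ⊕ Hyp G col

/-- adjacency of a vertex and a hypotenuse -/
def vh (G : SimpleGraph V) (col : V → Fin 3) (u : V) (h : Hyp G col) : Prop :=
  u = h.1.1 ∨ u = h.1.2 ∨ (col u = 1 ∧ G.Adj u h.1.1 ∧ G.Adj u h.1.2)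

/-- adjacency of two hypotenuses -/
def hh (G : SimpleGraph V) (col : V → Fin 3) (h k : Hyp G col) : Prop :=
  h.1.1 = k.1.1 ∧ h.1.2 ≠ k.1.2 ∧
    ∃ b : V, col b = 1 ∧ G.Adj b h.1.1 ∧ G.Adj b h.1.2 ∧ G.Adj b k.1.2

/-- adjacency -/
def hadj (G : SimpleGraph V) (col : V → Fin 3) : HV G col → HV G col → Prop
  | Sum.inl u, Sum.inl v => G.Adj u v ∧ col u ≠ 0 ∧ col v ≠ 0
  | Sum.inl u, Sum.inr h => vh G col u h
  | Sum.inr h, Sum.inl u => vh G col u h
  | Sum.inr h, Sum.inr k => hh G col h k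

/-- the graph of the subdivision -/
def hexG (G : SimpleGraph V) (col : V → Fin 3) : SimpleGraph (HV G col) where
  Adj := hadj G col
  symm := ⟨by
    rintro (u | h) (v | k) hx
    · exact ⟨hx.1.symm, hx.2.2, hx.2.1⟩
    · exact hx
    · exact hx
    · obtain ⟨h1, h2, b, h3, h4, h5, h6⟩ := hx
      exact ⟨h1.symm, h2.symm, b, h3, h1 ▸ h4, h6, h5⟩⟩
  loopless := ⟨by
    rintro (u | h) hx
    · exact hx.1.ne rfl
    · exact hx.2.1 rfl⟩

/-- the star of the long leg `a b`: all hypotenuses `(a,c)` with `a, b, c` a triangle -/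
def star (G : SimpleGraph V) (col : V → Fin 3) (a b : V) : Set (HV G col) :=
  {x | ∃ h : Hyp G col, x = Sum.inr h ∧ h.1.1 = a ∧ G.Adj b h.1.2}

/-- the lines: edges with at most one hypotenuse, and the stars with at least two elements -/
def hexL (G : SimpleGraph V) (col : V → Fin 3) : Set (Set (HV G col)) :=
  {ℓ | (∃ (u : V) (x : HV G col), hadj G col (Sum.inl u) x ∧ ℓ = {Sum.inl u, x}) ∨
    (∃ a b : V, col a = 0 ∧ col b = 1 ∧ G.Adj a b ∧ ℓ = star G col a b ∧
      ∃ x y : HV G col, x ∈ ℓ ∧ y ∈ ℓ ∧ x ≠ y)}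

end Pool.H90TC
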