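import Pool.Agent.H90.TC.Hex.Defs

set_option autoImplicit false

/-!
Proof. Write `h = (a,c)` for hypotenuses. `inl` elements adjacent to each other: only `b - c` (colours
1, 2). Three pairwise adjacent `inl` elements do not exist (only the colours 1, 2 and proper).

* `two`, `clique`: for a star: two different elements `(a,c)`, `(a,c')` with `b` adjacent to `c, c'` and
  to `a` are adjacent by definition.
* `ex`: two adjacent hypotenuses are in the star of `a b`, `b` the witness; otherwise the edge itself.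
* `uniq`: an ordinary line contains an `inl` element, a star does not; two ordinary lines `{inl u, x}`
  sharing two points are equal; two stars `(a,b)`, `(a',b')` sharing `(a,c) ≠ (a,c')`: `a = a'`, and if
  `b ≠ b'` then `b c b' c'` is a 4-cycle in the link of `a`, contradiction to `a4`.
* `common`: for an ordinary line clear (`d` is one of the two points). For a star of `a b`, with
  `(a,c) ≠ (a,c')` and a common neighbour `z`: `z = inl a` is adjacent to all; `z = inl b'` with
  `col b' = 1`: `b' = b` by `a4` (4-cycle `b c b' c'` in the link of `a`), adjacent to all; `z = inl u`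
  with `u = c` and `u = c'` impossible, mixed cases impossible by colours; `z = inr (a,c'')` with
  witnesses `b1` (for `c'', c`) and `b2` (for `c'', c'`): if `b1 = b` or `b2 = b` then `z` is in the
  star; if `b1 = b2` then `b1 = b` by `a4`; otherwise, `c'' ≠ c, c'`, and `b1 c b c' b2 c''` is a
  6-cycle in the link of `a`, contradiction to `a6`.
* `k4`: four pairwise adjacent elements. At most one is `inl`: two `inl` elements are `b, c`; a third
  element adjacent to both is `inr (a,c)`; the fourth is then also `inr (a',c)`, and two hypotenuses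
  with the same `c` are not adjacent. So there are three pairwise adjacent hypotenuses; they have
  the same `a` and witnesses `b12, b13, b23`; if two of the witnesses are equal then all three
  are in one star (if `b12 = b13` then all `c1, c2, c3` are adjacent to it); if they are pairwise
  different there is a 6-cycle in the link of `a`, contradiction.
-/

namespace Pool.H90TC

open Pool.H90SY

universe u

variable {V : Type u}

private theorem HexL_eq {G : SimpleGraph V} {col : V → Fin 3} {h k : Hyp G col}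
    (h1 : h.1.1 = k.1.1) (h2 : h.1.2 = k.1.2) : h = k := Subtype.ext (Prod.ext h1 h2)

private theorem HexL_star {G : SimpleGraph V} {col : V → Fin 3} {a b : V} {x : HV G col}
    (hx : x ∈ star G col a b) : ∃ h : Hyp G col, x = Sum.inr h ∧ h.1.1 = a ∧ G.Adj b h.1.2 := hx

private theorem HexL_z {G : SimpleGraph V} {col : V → Fin 3} {z : V} {h : Hyp G col}
    (h1 : h.1.1 = z) : G.Adj z h.1.2 := h1 ▸ h.2.2.2

/-- two witnesses of two different hypotenuses are equal -/
private theorem HexL_w {G : SimpleGraph V} {col : V → Fin 3} (hX : HexLoc G col) {z b b' : V}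
    {h k : Hyp G col} (h1 : h.1.1 = z) (h2 : k.1.1 = z) (hne : h.1.2 ≠ k.1.2)
    (hb : G.Adj z b) (hb' : G.Adj z b') (p1 : G.Adj b h.1.2) (p2 : G.Adj b k.1.2)
    (q1 : G.Adj b' h.1.2) (q2 : G.Adj b' k.1.2) : b = b' := by
  by_contra hcon
  have hz : col z = 0 := by rw [← h1]; exact h.2.1
  exact hX.a4 z hz b b' h.1.2 k.1.2 hb hb' (HexL_z h1) (HexL_z h2) p1 q1.symm q2 p2.symm hcon hne

private theorem HexL_six {G : SimpleGraph V} {col : V → Fin 3} (hX : HexLoc G col) {z b b' b'' : V}
    {h k m : Hyp G col} (h1 : h.1.1 = z) (h2 : k.1.1 = z) (h3 : m.1.1 = z)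
    (n1 : h.1.2 ≠ k.1.2) (n2 : k.1.2 ≠ m.1.2) (n3 : h.1.2 ≠ m.1.2)
    (hb : G.Adj z b) (hb' : G.Adj z b') (hb'' : G.Adj z b'')
    (p1 : G.Adj b h.1.2) (p2 : G.Adj b k.1.2) (q1 : G.Adj b' k.1.2) (q2 : G.Adj b' m.1.2)
    (r1 : G.Adj b'' m.1.2) (r2 : G.Adj b'' h.1.2) : b = b' ∨ b' = b'' ∨ b = b'' := by
  by_contra hcon
  push Not at hcon
  have hz : col z = 0 := by rw [← h1]; exact h.2.1
  exact hX.a6 z hz b b' b'' k.1.2 m.1.2 h.1.2 hb hb' hb'' (HexL_z h2) (HexL_z h3) (HexL_z h1)
    p2 q1.symm q2 r1.symm r2 p1.symm hcon.1 hcon.2.2 hcon.2.1 n2 (Ne.symm n1) (Ne.symm n3)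

private theorem HexL_starmem {G : SimpleGraph V} {col : V → Fin 3} {a b : V} {h k : Hyp G col}
    (h1 : h.1.1 = a) (h2 : k.1.1 = a) (hne : h ≠ k) (hb : col b = 1) (hab : G.Adj a b)
    (p : G.Adj b h.1.2) (q : G.Adj b k.1.2) : star G col a b ∈ hexL G col := by
  refine Or.inr ⟨a, b, ?_, hb, hab, rfl, Sum.inr h, Sum.inr k, ⟨h, rfl, h1, p⟩, ⟨k, rfl, h2, q⟩, ?_⟩
  · rw [← h1]; exact h.2.1
  · intro e; exact hne (Sum.inr.inj e)

private theorem HexL_three {G : SimpleGraph V} {col : V → Fin 3} (hX : HexLoc G col)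
    {h k m : Hyp G col} (a1 : hh G col h k) (a2 : hh G col h m) (a3 : hh G col k m) :
    ∃ ℓ : Set (HV G col), ℓ ∈ hexL G col ∧ Sum.inr h ∈ ℓ ∧ Sum.inr k ∈ ℓ ∧ Sum.inr m ∈ ℓ := by
  obtain ⟨e1, n1, b1, c1, p1, p2, p3⟩ := a1
  obtain ⟨e2, n2, b2, c2, q1, q2, q3⟩ := a2
  obtain ⟨e3, n3, b3, c3, r1, r2, r3⟩ := a3
  have hk : k.1.1 = h.1.1 := e1.symm
  have hm : m.1.1 = h.1.1 := e2.symm
  have r1' : G.Adj b3 h.1.1 := by rw [e1]; exact r1
  have hne : h ≠ k := by rintro rfl; exact n1 rfl
  have hne2 : h ≠ m := by rintro rfl; exact n2 rfl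
  rcases HexL_six hX (z := h.1.1) rfl hk hm n1 n3 n2 p1.symm r1'.symm q1.symm p2 p3 r2 r3 q3 q2 with
    e | e | e
  · subst e
    exact ⟨star G col h.1.1 b1, HexL_starmem rfl hk hne c1 p1.symm p2 p3, ⟨h, rfl, rfl, p2⟩,
      ⟨k, rfl, hk, p3⟩, ⟨m, rfl, hm, r3⟩⟩
  · subst e
    exact ⟨star G col h.1.1 b3, HexL_starmem rfl hk hne c3 r1'.symm q2 r2, ⟨h, rfl, rfl, q2⟩,
      ⟨k, rfl, hk, r2⟩, ⟨m, rfl, hm, r3⟩⟩
  · subst e
    exact ⟨star G col h.1.1 b1, HexL_starmem rfl hk hne c1 p1.symm p2 p3, ⟨h, rfl, rfl, p2⟩,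
      ⟨k, rfl, hk, p3⟩, ⟨m, rfl, hm, q3⟩⟩

private theorem HexL_col {G : SimpleGraph V} {col : V → Fin 3} (hT : Tri G col) {u v : V}
    (h : (hexG G col).Adj (Sum.inl u) (Sum.inl v)) : (col u = 1 ∧ col v = 2) ∨ (col u = 2 ∧ col v = 1) := by
  obtain ⟨h1, h2, h3⟩ := h
  have h4 := hT.proper u v h1
  revert h2 h3 h4
  generalize col u = x
  generalize col v = y
  revert x y
  decide

private theorem HexL_col2 {G : SimpleGraph V} {col : V → Fin 3} {v : V} {h : Hyp G col}
    (hv : col v = 2) (hx : (hexG G col).Adj (Sum.inl v) (Sum.inr h)) : h.1.2 = v := by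
  have hx' : vh G col v h := hx
  rcases hx' with e | e | ⟨e, -⟩
  · have := h.2.1
    rw [← e, hv] at this
    exact absurd this (by decide)
  · exact e.symm
  · rw [hv] at e
    exact absurd e (by decide)

private theorem HexL_two {G : SimpleGraph V} {col : V → Fin 3} (hT : Tri G col) {u v : V}
    {x y : HV G col} (h : (hexG G col).Adj (Sum.inl u) (Sum.inl v))
    (a1 : (hexG G col).Adj (Sum.inl u) x) (a2 : (hexG G col).Adj (Sum.inl v) x)
    (a3 : (hexG G col).Adj (Sum.inl u) y) (a4 : (hexG G col).Adj (Sum.inl v) y)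
    (a5 : (hexG G col).Adj x y) : False := by
  have hinl : ∀ w : V, (hexG G col).Adj (Sum.inl u) (Sum.inl w) →
      (hexG G col).Adj (Sum.inl v) (Sum.inl w) → False := by
    intro w b1 b2
    have c1 := HexL_col hT h
    have c2 := HexL_col hT b1
    have c3 := HexL_col hT b2
    have h5 := c1
    rcases c1 with ⟨c1, d1⟩ | ⟨c1, d1⟩ <;> rcases c2 with ⟨c2, d2⟩ | ⟨c2, d2⟩ <;>
      rcases c3 with ⟨c3, d3⟩ | ⟨c3, d3⟩ <;> simp_all
  rcases x with w | h1
  · exact hinl w a1 a2
  rcases y with w | h2
  · exact hinl w a3 a4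
  have hne : h1.1.2 ≠ h2.1.2 := a5.2.1
  rcases HexL_col hT h with ⟨c1, d1⟩ | ⟨c1, d1⟩
  · exact hne ((HexL_col2 d1 a2).trans (HexL_col2 d1 a4).symm)
  · exact hne ((HexL_col2 c1 a1).trans (HexL_col2 c1 a3).symm)

theorem hex_lines {G : SimpleGraph V} {col : V → Fin 3} (hT : Tri G col) (hX : HexLoc G col) :
    IsLines (hexG G col) (hexL G col) where
  two := by
    rintro ℓ (⟨u, x, hx, rfl⟩ | ⟨a, b, ha, hb, hab, rfl, x, y, hx, hy, hne⟩)
    · have hx' : (hexG G col).Adj (Sum.inl u) x := hx
      exact ⟨Sum.inl u, x, by simp, by simp, hx'.ne⟩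
    · exact ⟨x, y, hx, hy, hne⟩
  clique := by
    rintro ℓ (⟨u, x, hx, rfl⟩ | ⟨a, b, ha, hb, hab, rfl, -⟩) p q hp hq hpq
    · have hx' : (hexG G col).Adj (Sum.inl u) x := hx
      rcases hp with rfl | hp <;> rcases hq with rfl | hq
      · exact absurd rfl hpq
      · obtain rfl : q = x := hq
        exact hx'
      · obtain rfl : p = x := hp
        exact hx'.symm
      · obtain rfl : p = x := hp
        obtain rfl : q = p := hq
        exact absurd rfl hpq
    · obtain ⟨h, rfl, h1, h2⟩ := HexL_star hp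
      obtain ⟨k, rfl, k1, k2⟩ := HexL_star hq
      refine ⟨h1.trans k1.symm, ?_, b, hb, ?_, h2, k2⟩
      · intro e
        exact hpq (congrArg Sum.inr (HexL_eq (h1.trans k1.symm) e))
      · rw [h1]; exact hab.symm
  ex := by
    rintro (u | h) q hpq
    · exact ⟨{Sum.inl u, q}, Or.inl ⟨u, q, hpq, rfl⟩, by simp, by simp⟩
    · rcases q with v | k
      · exact ⟨{Sum.inl v, Sum.inr h}, Or.inl ⟨v, Sum.inr h, hpq, rfl⟩, by simp, by simp⟩
      · obtain ⟨e1, n1, b1, c1, p1, p2, p3⟩ := hpq
        have hne : h ≠ k := by rintro rfl; exact n1 rfl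
        exact ⟨star G col h.1.1 b1, HexL_starmem rfl e1.symm hne c1 p1.symm p2 p3,
          ⟨h, rfl, rfl, p2⟩, ⟨k, rfl, e1.symm, p3⟩⟩
  uniq := by
    rintro ℓ ℓ' (⟨u, x, hx, rfl⟩ | ⟨a, b, ha, hb, hab, rfl, -⟩)
      (⟨u', x', hx', rfl⟩ | ⟨a', b', ha', hb', hab', rfl, -⟩) p q hpq hp hq hp' hq'
    · have e : ∀ s t : HV G col, p ∈ ({s, t} : Set (HV G col)) → q ∈ ({s, t} : Set (HV G col)) →
          ({s, t} : Set (HV G col)) = {p, q} := by
        intro s t h1 h2
        rcases h1 with h1 | h1 <;> rcases h2 with h2 | h2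
        · exact absurd (h1.trans h2.symm) hpq
        · have h2' : q = t := h2
          rw [h1, h2']
        · have h1' : p = t := h1
          rw [h1', h2, Set.pair_comm]
        · have h1' : p = t := h1
          have h2' : q = t := h2
          exact absurd (h1'.trans h2'.symm) hpq
      rw [e _ _ hp hq, e _ _ hp' hq']
    · exfalso
      obtain ⟨h, rfl, -⟩ := HexL_star hp'
      obtain ⟨k, rfl, -⟩ := HexL_star hq'
      rcases hp with hp | hp
      · exact absurd hp (by simp)
      · rcases hq with hq | hq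
        · exact absurd hq (by simp)
        · have hp' : Sum.inr h = x := hp
          have hq' : Sum.inr k = x := hq
          exact hpq (hp'.trans hq'.symm)
    · exfalso
      obtain ⟨h, rfl, -⟩ := HexL_star hp
      obtain ⟨k, rfl, -⟩ := HexL_star hq
      rcases hp' with hp' | hp'
      · exact absurd hp' (by simp)
      · rcases hq' with hq' | hq'
        · exact absurd hq' (by simp)
        · have hp'' : Sum.inr h = x' := hp'
          have hq'' : Sum.inr k = x' := hq'
          exact hpq (hp''.trans hq''.symm)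
    · obtain ⟨h, rfl, h1, h2⟩ := HexL_star hp
      obtain ⟨k, rfl, k1, k2⟩ := HexL_star hq
      obtain ⟨h', e, h1', h2'⟩ := HexL_star hp'
      obtain rfl := Sum.inr.inj e
      obtain ⟨k', e, k1', k2'⟩ := HexL_star hq'
      obtain rfl := Sum.inr.inj e
      have haa : a = a' := h1.symm.trans h1'
      subst haa
      have hne : h.1.2 ≠ k.1.2 := fun e => hpq (congrArg Sum.inr (HexL_eq (h1.trans k1.symm) e))
      rw [HexL_w hX h1 k1 hne hab hab' h2 k2 h2' k2']
  common := by
    rintro ℓ (⟨u, x, hx, rfl⟩ | ⟨a, b, ha, hb, hab, rfl, -⟩) p q c hpq hp hq hcp hcq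
    · right
      intro d hd
      have e : d = p ∨ d = q := by
        rcases hp with hp | hp <;> rcases hq with hq | hq <;> rcases hd with hd | hd
        · exact Or.inl (hd.trans hp.symm)
        · exact absurd (hp.trans hq.symm) hpq
        · exact Or.inl (hd.trans hp.symm)
        · exact Or.inr (Eq.trans hd (Eq.symm hq))
        · exact Or.inr (hd.trans hq.symm)
        · exact Or.inl (Eq.trans hd (Eq.symm hp))
        · exact absurd (Eq.trans hp (Eq.symm hq)) hpq
        · exact Or.inl (Eq.trans hd (Eq.symm hp))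
      rcases e with rfl | rfl
      · exact hcp
      · exact hcq
    · obtain ⟨h, rfl, h1, h2⟩ := HexL_star hp
      obtain ⟨k, rfl, k1, k2⟩ := HexL_star hq
      have hne : h.1.2 ≠ k.1.2 := fun e => hpq (congrArg Sum.inr (HexL_eq (h1.trans k1.symm) e))
      rcases c with u | m
      · right
        have hA : u = a → ∀ d : HV G col, d ∈ star G col a b → (hexG G col).Adj (Sum.inl u) d := by
          rintro rfl d hd
          obtain ⟨m, rfl, m1, m2⟩ := HexL_star hd
          exact Or.inl m1.symm
        have hcp' : vh G col u h := hcp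
        have hcq' : vh G col u k := hcq
        rcases hcp' with e | e | ⟨e, e1, e2⟩
        · exact hA (e.trans h1)
        · rcases hcq' with f | f | ⟨f, f1, f2⟩
          · exact hA (f.trans k1)
          · exact absurd (e.symm.trans f) hne
          · exfalso
            have := h.2.2.1
            rw [← e, f] at this
            exact absurd this (by decide)
        · rcases hcq' with f | f | ⟨f, f1, f2⟩
          · exact hA (f.trans k1)
          · exfalso
            have := k.2.2.1
            rw [← f, e] at this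
            exact absurd this (by decide)
          · have hu : b = u := HexL_w hX h1 k1 hne hab (by rw [← h1]; exact e1.symm) h2 k2 e2 f2
            subst hu
            intro d hd
            obtain ⟨m, rfl, m1, m2⟩ := HexL_star hd
            refine Or.inr (Or.inr ⟨hb, ?_, m2⟩)
            rw [m1]; exact hab.symm
      · left
        obtain ⟨e1, n1, b1, c1, p1, p2, p3⟩ := hcp
        obtain ⟨e2, n2, b2, c2, q1, q2, q3⟩ := hcq
        have m1 : m.1.1 = a := e1.trans h1
        rw [m1] at p1 q1
        refine ⟨m, rfl, m1, ?_⟩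
        rcases HexL_six hX h1 k1 m1 hne (Ne.symm n2) (Ne.symm n1) hab q1.symm p1.symm h2 k2 q3 q2 p2 p3
          with e | e | e
        · rw [e]; exact q2
        · subst e
          have := HexL_w hX h1 k1 hne hab q1.symm h2 k2 p3 q3
          rw [this]; exact q2
        · rw [e]; exact p2
  k4 := by
    rintro a b c d hab hac had hbc hbd hcd
    rcases a with a | a
    · rcases b with b | b
      · exact (HexL_two hT hab hac hbc had hbd hcd).elim
      · rcases c with c | c
        · exact (HexL_two hT hac hab hbc.symm had hcd hbd).elim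
        · rcases d with d | d
          · exact (HexL_two hT had hab hbd.symm hac hcd.symm hbc).elim
          · obtain ⟨ℓ, h1, h2, h3, h4⟩ := HexL_three hX hbc hbd hcd
            exact ⟨ℓ, h1, Or.inr (Or.inr (Or.inr ⟨h2, h3, h4⟩))⟩
    · rcases b with b | b
      · rcases c with c | c
        · exact (HexL_two hT hbc hab.symm hac.symm hbd hcd had).elim
        · rcases d with d | d
          · exact (HexL_two hT hbd hab.symm had.symm hbc hcd.symm hac).elim
          · obtain ⟨ℓ, h1, h2, h3, h4⟩ := HexL_three hX hac had hcd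
            exact ⟨ℓ, h1, Or.inr (Or.inr (Or.inl ⟨h2, h3, h4⟩))⟩
      · rcases c with c | c
        · rcases d with d | d
          · exact (HexL_two hT hcd hac.symm had.symm hbc.symm hbd.symm hab).elim
          · obtain ⟨ℓ, h1, h2, h3, h4⟩ := HexL_three hX hab had hbd
            exact ⟨ℓ, h1, Or.inr (Or.inl ⟨h2, h3, h4⟩)⟩
        · obtain ⟨ℓ, h1, h2, h3, h4⟩ := HexL_three hX hab hac hbc
          exact ⟨ℓ, h1, Or.inl ⟨h2, h3, h4⟩⟩

end Pool.H90TC
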