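import Pool.Agent.H90.TC.Hex.Defs

set_option autoImplicit false

/-!
The links of the vertices of colour 0 in the subdivision. The neighbours of `inl z`, `col z = 0`, are
the hypotenuses `(z,c)`. In a 4-cycle or 5-cycle of hypotenuses `(z,c_i)` in the link all `c_i` are
different, and there are witnesses `b_i` adjacent to `z, c_i, c_(i+1)`. If two witnesses are equal
then there is a chord (the witness is adjacent to at least three of the `c_i`; in the case of
opposite witnesses of a 4-cycle to all four; in a cyclic order of 4 or 5 elements three or four of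
them contain two that are not neighbours). If all witnesses are different there is an 8-cycle or a
10-cycle in the link of `z` in `G`, contradiction to `a8`, `a10`.
-/

namespace Pool.H90TC

open Pool.H90SY

universe u

variable {V : Type u}

private theorem LocA_nb {G : SimpleGraph V} {col : V → Fin 3} (z : V) (hz : col z = 0)
    (x : HV G col) (hx : (hexG G col).Adj (Sum.inl z) x) : ∃ h : Hyp G col, x = Sum.inr h ∧ h.1.1 = z := by
  rcases x with v | h
  · exact absurd hz hx.2.1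
  · refine ⟨h, rfl, ?_⟩
    have hx' : vh G col z h := hx
    rcases hx' with h1 | h1 | ⟨h1, -⟩
    · exact h1.symm
    · have := h.2.2.1
      rw [← h1, hz] at this
      exact absurd this (by decide)
    · rw [hz] at h1
      exact absurd h1 (by decide)

private theorem LocA_ne {G : SimpleGraph V} {col : V → Fin 3} {z : V} {h k : Hyp G col}
    (h1 : h.1.1 = z) (h2 : k.1.1 = z) (hne : (Sum.inr h : HV G col) ≠ Sum.inr k) : h.1.2 ≠ k.1.2 := by
  intro e
  apply hne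
  congr 1
  exact Subtype.ext (Prod.ext (h1.trans h2.symm) e)

private theorem LocA_wit {G : SimpleGraph V} {col : V → Fin 3} {z : V} {h k : Hyp G col}
    (h1 : h.1.1 = z) (hx : (hexG G col).Adj (Sum.inr h) (Sum.inr k)) :
    h.1.2 ≠ k.1.2 ∧ ∃ b : V, col b = 1 ∧ G.Adj z b ∧ G.Adj b h.1.2 ∧ G.Adj b k.1.2 := by
  obtain ⟨-, h3, b, h4, h5, h6, h7⟩ := hx
  exact ⟨h3, b, h4, h1 ▸ h5.symm, h6, h7⟩

private theorem LocA_chord {G : SimpleGraph V} {col : V → Fin 3} {z b : V} {h k : Hyp G col}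
    (h1 : h.1.1 = z) (h2 : k.1.1 = z) (h3 : h.1.2 ≠ k.1.2) (hb : col b = 1) (hzb : G.Adj z b)
    (h4 : G.Adj b h.1.2) (h5 : G.Adj b k.1.2) : (hexG G col).Adj (Sum.inr h) (Sum.inr k) :=
  ⟨h1.trans h2.symm, h3, b, hb, h1 ▸ hzb.symm, h4, h5⟩

private theorem LocA_z {G : SimpleGraph V} {col : V → Fin 3} {z : V} {h : Hyp G col}
    (h1 : h.1.1 = z) : G.Adj z h.1.2 := h1 ▸ h.2.2.2

theorem locA4 {G : SimpleGraph V} {col : V → Fin 3} (hT : Tri G col) (hX : HexLoc G col) (z : V)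
    (hz : col z = 0) (a b c d : HV G col) (ha : (hexG G col).Adj (Sum.inl z) a)
    (hb : (hexG G col).Adj (Sum.inl z) b) (hc : (hexG G col).Adj (Sum.inl z) c)
    (hd : (hexG G col).Adj (Sum.inl z) d) (hab : (hexG G col).Adj a b)
    (hbc : (hexG G col).Adj b c) (hcd : (hexG G col).Adj c d) (hda : (hexG G col).Adj d a)
    (hac : a ≠ c) (hbd : b ≠ d) : (hexG G col).Adj a c ∨ (hexG G col).Adj b d := by
  obtain ⟨h1, rfl, e1⟩ := LocA_nb z hz a ha
  obtain ⟨h2, rfl, e2⟩ := LocA_nb z hz b hb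
  obtain ⟨h3, rfl, e3⟩ := LocA_nb z hz c hc
  obtain ⟨h4, rfl, e4⟩ := LocA_nb z hz d hd
  obtain ⟨n12, w2, k2, z2, p2, q2⟩ := LocA_wit e1 hab
  obtain ⟨n23, w3, k3, z3, p3, q3⟩ := LocA_wit e2 hbc
  obtain ⟨n34, w4, k4, z4, p4, q4⟩ := LocA_wit e3 hcd
  obtain ⟨n41, w1, k1, z1, p1, q1⟩ := LocA_wit e4 hda
  have n13 := LocA_ne e1 e3 hac
  have n24 := LocA_ne e2 e4 hbd
  by_cases t12 : w1 = w2
  · subst t12; right
    exact LocA_chord e2 e4 n24 k1 z1 q2 p1
  by_cases t23 : w2 = w3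
  · subst t23; left
    exact LocA_chord e1 e3 n13 k2 z2 p2 q3
  by_cases t34 : w3 = w4
  · subst t34; right
    exact LocA_chord e2 e4 n24 k3 z3 p3 q4
  by_cases t41 : w4 = w1
  · subst t41; left
    exact LocA_chord e1 e3 n13 k4 z4 q1 p4
  by_cases t13 : w1 = w3
  · subst t13; left
    exact LocA_chord e1 e3 n13 k1 z1 q1 q3
  by_cases t24 : w2 = w4
  · subst t24; left
    exact LocA_chord e1 e3 n13 k2 z2 p2 p4
  exact (hX.a8 z hz w1 w2 w3 w4 h1.1.2 h2.1.2 h3.1.2 h4.1.2 z1 z2 z3 z4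
    (LocA_z e1) (LocA_z e2) (LocA_z e3) (LocA_z e4) q1 p2.symm q2 p3.symm q3 p4.symm q4 p1.symm
    t12 t13 (Ne.symm t41) t23 t24 t34 n12 n13 (Ne.symm n41) n23 n24 n34).elim

theorem locA5 {G : SimpleGraph V} {col : V → Fin 3} (hT : Tri G col) (hX : HexLoc G col) (z : V)
    (hz : col z = 0) (a b c d e : HV G col) (ha : (hexG G col).Adj (Sum.inl z) a)
    (hb : (hexG G col).Adj (Sum.inl z) b) (hc : (hexG G col).Adj (Sum.inl z) c)
    (hd : (hexG G col).Adj (Sum.inl z) d) (he : (hexG G col).Adj (Sum.inl z) e)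
    (hab : (hexG G col).Adj a b)
    (hbc : (hexG G col).Adj b c) (hcd : (hexG G col).Adj c d) (hde : (hexG G col).Adj d e)
    (hea : (hexG G col).Adj e a)
    (hac : a ≠ c) (had : a ≠ d) (hbd : b ≠ d) (hbe : b ≠ e) (hce : c ≠ e) :
    (hexG G col).Adj a c ∨ (hexG G col).Adj a d ∨ (hexG G col).Adj b d ∨
      (hexG G col).Adj b e ∨ (hexG G col).Adj c e := by
  obtain ⟨h1, rfl, e1⟩ := LocA_nb z hz a ha
  obtain ⟨h2, rfl, e2⟩ := LocA_nb z hz b hb
  obtain ⟨h3, rfl, e3⟩ := LocA_nb z hz c hc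
  obtain ⟨h4, rfl, e4⟩ := LocA_nb z hz d hd
  obtain ⟨h5, rfl, e5⟩ := LocA_nb z hz e he
  obtain ⟨n12, w2, k2, z2, p2, q2⟩ := LocA_wit e1 hab
  obtain ⟨n23, w3, k3, z3, p3, q3⟩ := LocA_wit e2 hbc
  obtain ⟨n34, w4, k4, z4, p4, q4⟩ := LocA_wit e3 hcd
  obtain ⟨n45, w5, k5, z5, p5, q5⟩ := LocA_wit e4 hde
  obtain ⟨n51, w1, k1, z1, p1, q1⟩ := LocA_wit e5 hea
  have n13 := LocA_ne e1 e3 hac
  have n14 := LocA_ne e1 e4 had
  have n24 := LocA_ne e2 e4 hbd
  have n25 := LocA_ne e2 e5 hbe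
  have n35 := LocA_ne e3 e5 hce
  -- w1 : 5,1   w2 : 1,2   w3 : 2,3   w4 : 3,4   w5 : 4,5
  by_cases t12 : w1 = w2
  · subst t12; right; right; right; left
    exact LocA_chord e2 e5 n25 k1 z1 q2 p1
  by_cases t23 : w2 = w3
  · subst t23; left
    exact LocA_chord e1 e3 n13 k2 z2 p2 q3
  by_cases t34 : w3 = w4
  · subst t34; right; right; left
    exact LocA_chord e2 e4 n24 k3 z3 p3 q4
  by_cases t45 : w4 = w5
  · subst t45; right; right; right; right
    exact LocA_chord e3 e5 n35 k4 z4 p4 q5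
  by_cases t51 : w5 = w1
  · subst t51; right; left
    exact LocA_chord e1 e4 n14 k5 z5 q1 p5
  by_cases t13 : w1 = w3
  · subst t13; left
    exact LocA_chord e1 e3 n13 k1 z1 q1 q3
  by_cases t24 : w2 = w4
  · subst t24; left
    exact LocA_chord e1 e3 n13 k2 z2 p2 p4
  by_cases t35 : w3 = w5
  · subst t35; right; right; left
    exact LocA_chord e2 e4 n24 k3 z3 p3 p5
  by_cases t41 : w4 = w1
  · subst t41; right; left
    exact LocA_chord e1 e4 n14 k4 z4 q1 q4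
  by_cases t52 : w5 = w2
  · subst t52; right; left
    exact LocA_chord e1 e4 n14 k5 z5 p2 p5
  exact (hX.a10 z hz w1 w2 w3 w4 w5 h1.1.2 h2.1.2 h3.1.2 h4.1.2 h5.1.2 z1 z2 z3 z4 z5
    (LocA_z e1) (LocA_z e2) (LocA_z e3) (LocA_z e4) (LocA_z e5)
    q1 p2.symm q2 p3.symm q3 p4.symm q4 p5.symm q5 p1.symm
    t12 t13 (Ne.symm t41) (Ne.symm t51) t23 t24 (Ne.symm t52) t34 t35 t45
    n12 n13 n14 (Ne.symm n51) n23 n24 n25 n34 n35 n45).elim

end Pool.H90TC
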