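import Pool.Agent.H90.TC.Hex.Defs

set_option autoImplicit false

/-!
The links of the vertices of colour 1. The neighbours of `inl z`, `col z = 1`, are `inl c` with
`col c = 2` adjacent to `z`, and the hypotenuses `(a,c)` with `a, c` adjacent to `z`. Adjacencies among
them: `inl c` and `(a,c')` iff `c = c'` (`c` is not `a` and not of colour 1); two `inl` are not adjacent
(`col = 2` both); `(a,c)`, `(a',c')` adjacent implies `a = a'`, and then, as `z` is adjacent to
`a, c, c'`, for `c ≠ c'` they are adjacent with witness `z`.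

Let `x1, ..., xk` be a 4-cycle or 5-cycle. Two different `inl c`, `inl c'` have no common neighbour of
the form `inr`, and all neighbours of an `inl` are `inr`; so two `inl` elements are not at distance
two in the cycle, hence there is at most one `inl` element. If `x1 = inl c` is the only one, then
`x2 = (a,c)`, `xk = (a',c)` with `a ≠ a'` (they are different), and the remaining elements form a
chain of adjacent hypotenuses from `x2` to `xk`, so `a = a'`: contradiction. If all are hypotenuses
then all have the same `a`, and `x1, x3` are adjacent with witness `z` (they are different, so their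
second components are different).
-/

namespace Pool.H90TC

open Pool.H90SY

universe u

variable {V : Type u}

private theorem LocB_c {G : SimpleGraph V} {col : V → Fin 3} (hT : Tri G col) {z u : V}
    (hz : col z = 1) (h : (hexG G col).Adj (Sum.inl z) (Sum.inl u)) : col u = 2 := by
  obtain ⟨h1, h2, h3⟩ := h
  have h4 := hT.proper z u h1
  rw [hz] at h4
  revert h3 h4
  generalize col u = y
  revert y
  decide

private theorem LocB_h {G : SimpleGraph V} {col : V → Fin 3} {z : V} {h : Hyp G col}
    (hz : col z = 1) (hx : (hexG G col).Adj (Sum.inl z) (Sum.inr h)) :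
    G.Adj z h.1.1 ∧ G.Adj z h.1.2 := by
  have hx' : vh G col z h := hx
  rcases hx' with e | e | ⟨-, e1, e2⟩
  · have := h.2.1
    rw [← e, hz] at this
    exact absurd this (by decide)
  · have := h.2.2.1
    rw [← e, hz] at this
    exact absurd this (by decide)
  · exact ⟨e1, e2⟩

private theorem LocB_ii {G : SimpleGraph V} {col : V → Fin 3} (hT : Tri G col) {z u v : V}
    (hz : col z = 1) (hu : (hexG G col).Adj (Sum.inl z) (Sum.inl u))
    (hv : (hexG G col).Adj (Sum.inl z) (Sum.inl v))
    (h : (hexG G col).Adj (Sum.inl u) (Sum.inl v)) : False :=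
  hT.proper u v h.1 ((LocB_c hT hz hu).trans (LocB_c hT hz hv).symm)

private theorem LocB_ih {G : SimpleGraph V} {col : V → Fin 3} {u : V} {h : Hyp G col}
    (hu : col u = 2) (hx : (hexG G col).Adj (Sum.inl u) (Sum.inr h)) : u = h.1.2 := by
  have hx' : vh G col u h := hx
  rcases hx' with e | e | ⟨e, -⟩
  · have := h.2.1
    rw [← e, hu] at this
    exact absurd this (by decide)
  · exact e
  · rw [hu] at e
    exact absurd e (by decide)

private theorem LocB_iri {G : SimpleGraph V} {col : V → Fin 3} (hT : Tri G col) {z u v : V}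
    {x : HV G col} (hz : col z = 1) (hu : (hexG G col).Adj (Sum.inl z) (Sum.inl u))
    (hx : (hexG G col).Adj (Sum.inl z) x)
    (hv : (hexG G col).Adj (Sum.inl z) (Sum.inl v))
    (h1 : (hexG G col).Adj (Sum.inl u) x) (h2 : (hexG G col).Adj x (Sum.inl v))
    (hne : (Sum.inl u : HV G col) ≠ Sum.inl v) : False := by
  rcases x with w | h
  · exact LocB_ii hT hz hu hx h1
  · exact hne (congrArg Sum.inl ((LocB_ih (LocB_c hT hz hu) h1).trans
      (LocB_ih (LocB_c hT hz hv) h2.symm).symm))

private theorem LocB_rrr {G : SimpleGraph V} {col : V → Fin 3} {z : V} {h k m : Hyp G col}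
    (hz : col z = 1) (hh' : (hexG G col).Adj (Sum.inl z) (Sum.inr h))
    (hm : (hexG G col).Adj (Sum.inl z) (Sum.inr m))
    (h1 : (hexG G col).Adj (Sum.inr h) (Sum.inr k)) (h2 : (hexG G col).Adj (Sum.inr k) (Sum.inr m))
    (hne : (Sum.inr h : HV G col) ≠ Sum.inr m) : (hexG G col).Adj (Sum.inr h) (Sum.inr m) := by
  have e : h.1.1 = m.1.1 := h1.1.trans h2.1
  refine ⟨e, fun e2 => hne (congrArg Sum.inr (Subtype.ext (Prod.ext e e2))), z, hz,
    (LocB_h hz hh').1, (LocB_h hz hh').2, (LocB_h hz hm).2⟩

theorem locB4 {G : SimpleGraph V} {col : V → Fin 3} (hT : Tri G col) (hX : HexLoc G col) (z : V)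
    (hz : col z = 1) (a b c d : HV G col) (ha : (hexG G col).Adj (Sum.inl z) a)
    (hb : (hexG G col).Adj (Sum.inl z) b) (hc : (hexG G col).Adj (Sum.inl z) c)
    (hd : (hexG G col).Adj (Sum.inl z) d) (hab : (hexG G col).Adj a b)
    (hbc : (hexG G col).Adj b c) (hcd : (hexG G col).Adj c d) (hda : (hexG G col).Adj d a)
    (hac : a ≠ c) (hbd : b ≠ d) : (hexG G col).Adj a c ∨ (hexG G col).Adj b d := by
  rcases a with a | a <;> rcases b with b | b <;> rcases c with c | c <;> rcases d with d | d <;>
    first
      | exact (LocB_ii hT hz ha hb hab).elim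
      | exact (LocB_ii hT hz hb hc hbc).elim
      | exact (LocB_ii hT hz hc hd hcd).elim
      | exact (LocB_ii hT hz hd ha hda).elim
      | exact (LocB_iri hT hz ha hb hc hab hbc hac).elim
      | exact (LocB_iri hT hz hb hc hd hbc hcd hbd).elim
      | exact Or.inl (LocB_rrr hz ha hc hab hbc hac)
      | exact Or.inl (LocB_rrr hz ha hc hda.symm hcd.symm hac)
      | exact Or.inr (LocB_rrr hz hb hd hbc hcd hbd)
      | exact Or.inr (LocB_rrr hz hb hd hab.symm hda.symm hbd)

theorem locB5 {G : SimpleGraph V} {col : V → Fin 3} (hT : Tri G col) (hX : HexLoc G col) (z : V)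
    (hz : col z = 1) (a b c d e : HV G col) (ha : (hexG G col).Adj (Sum.inl z) a)
    (hb : (hexG G col).Adj (Sum.inl z) b) (hc : (hexG G col).Adj (Sum.inl z) c)
    (hd : (hexG G col).Adj (Sum.inl z) d) (he : (hexG G col).Adj (Sum.inl z) e)
    (hab : (hexG G col).Adj a b)
    (hbc : (hexG G col).Adj b c) (hcd : (hexG G col).Adj c d) (hde : (hexG G col).Adj d e)
    (hea : (hexG G col).Adj e a)
    (hac : a ≠ c) (had : a ≠ d) (hbd : b ≠ d) (hbe : b ≠ e) (hce : c ≠ e) :
    (hexG G col).Adj a c ∨ (hexG G col).Adj a d ∨ (hexG G col).Adj b d ∨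
      (hexG G col).Adj b e ∨ (hexG G col).Adj c e := by
  rcases a with a | a <;> rcases b with b | b <;> rcases c with c | c <;> rcases d with d | d <;>
    rcases e with e | e <;>
    first
      | exact (LocB_ii hT hz ha hb hab).elim
      | exact (LocB_ii hT hz hb hc hbc).elim
      | exact (LocB_ii hT hz hc hd hcd).elim
      | exact (LocB_ii hT hz hd he hde).elim
      | exact (LocB_ii hT hz he ha hea).elim
      | exact (LocB_iri hT hz ha hb hc hab hbc hac).elim
      | exact (LocB_iri hT hz hb hc hd hbc hcd hbd).elim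
      | exact (LocB_iri hT hz hc hd he hcd hde hce).elim
      | exact (LocB_iri hT hz ha he hd hea.symm hde.symm had).elim
      | exact (LocB_iri hT hz hb ha he hab.symm hea.symm hbe).elim
      | exact Or.inl (LocB_rrr hz ha hc hab hbc hac)
      | exact Or.inr (Or.inl (LocB_rrr hz ha hd hea.symm hde.symm had))
      | exact Or.inr (Or.inr (Or.inl (LocB_rrr hz hb hd hbc hcd hbd)))
      | exact Or.inr (Or.inr (Or.inr (Or.inl (LocB_rrr hz hb he hab.symm hea.symm hbe))))
      | exact Or.inr (Or.inr (Or.inr (Or.inr (LocB_rrr hz hc he hcd hde hce))))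

end Pool.H90TC
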