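import Pool.Agent.H90.TC.Hex.Defs

set_option autoImplicit false

/-!
The links of the vertices of colour 2. The neighbours of `inl z`, `col z = 2`, are `inl b` with
`col b = 1` adjacent to `z`, and the hypotenuses `(a,z)`. Adjacencies among them: `inl b` and `(a,z)`
iff `b` is adjacent to `a`; two `inl` are not adjacent (both have colour 1); two hypotenuses with the
same second component `z` are not adjacent. So the link is bipartite: a 5-cycle is impossible (by
cases), and a 4-cycle `inl b, (a,z), inl b', (a',z)` gives the 4-cycle `b, a, b', a'` in the link of `z`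
in `G`, contradiction to `c4`.
-/

namespace Pool.H90TC

open Pool.H90SY

universe u

variable {V : Type u}

/-- the neighbours of `inl z`, `col z = 2` -/
private theorem LocC_nb {G : SimpleGraph V} {col : V → Fin 3} (hT : Tri G col) (z : V)
    (hz : col z = 2) (x : HV G col) (hx : (hexG G col).Adj (Sum.inl z) x) :
    (∃ b : V, x = Sum.inl b ∧ col b = 1 ∧ G.Adj z b) ∨
      (∃ h : Hyp G col, x = Sum.inr h ∧ h.1.2 = z) := by
  rcases x with b | h
  · left
    obtain ⟨h1, h2, h3⟩ : G.Adj z b ∧ col z ≠ 0 ∧ col b ≠ 0 := hx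
    have h4 := hT.proper z b h1
    rw [hz] at h4
    refine ⟨b, rfl, ?_, h1⟩
    revert h3 h4
    generalize col b = c
    revert c
    decide
  · right
    have h1 : z = h.1.1 ∨ z = h.1.2 ∨ (col z = 1 ∧ G.Adj z h.1.1 ∧ G.Adj z h.1.2) := hx
    rcases h1 with h1 | h1 | h1
    · exfalso
      have := h.2.1
      rw [← h1, hz] at this
      exact absurd this (by decide)
    · exact ⟨h, rfl, h1.symm⟩
    · exfalso
      have := h1.1
      rw [hz] at this
      exact absurd this (by decide)

/-- adjacencies in the link -/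
private theorem LocC_ll {G : SimpleGraph V} {col : V → Fin 3} (hT : Tri G col) {b c : V}
    (hb : col b = 1) (hc : col c = 1)
    (h : (hexG G col).Adj (Sum.inl b) (Sum.inl c)) : False := by
  have h1 : G.Adj b c ∧ col b ≠ 0 ∧ col c ≠ 0 := h
  exact hT.proper b c h1.1 (by rw [hb, hc])

private theorem LocC_rr {G : SimpleGraph V} {col : V → Fin 3} {z : V} {h k : Hyp G col}
    (h1 : h.1.2 = z) (k1 : k.1.2 = z)
    (hk : (hexG G col).Adj (Sum.inr h) (Sum.inr k)) : False := by
  have h2 : hh G col h k := hk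
  exact h2.2.1 (by rw [h1, k1])

private theorem LocC_lr {G : SimpleGraph V} {col : V → Fin 3} {b : V} {h : Hyp G col}
    (hb : col b = 1) (hk : (hexG G col).Adj (Sum.inl b) (Sum.inr h)) : G.Adj b h.1.1 := by
  have h1 : b = h.1.1 ∨ b = h.1.2 ∨ (col b = 1 ∧ G.Adj b h.1.1 ∧ G.Adj b h.1.2) := hk
  rcases h1 with h1 | h1 | h1
  · exfalso
    have := h.2.1
    rw [← h1, hb] at this
    exact absurd this (by decide)
  · exfalso
    have := h.2.2.1
    rw [← h1, hb] at this
    exact absurd this (by decide)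
  · exact h1.2.1

/-- the link is bipartite -/
private theorem LocC_ne {G : SimpleGraph V} {col : V → Fin 3} (hT : Tri G col) (z : V)
    (hz : col z = 2) (x y : HV G col) (hx : (hexG G col).Adj (Sum.inl z) x)
    (hy : (hexG G col).Adj (Sum.inl z) y) (hxy : (hexG G col).Adj x y) :
    x.isLeft ≠ y.isLeft := by
  rcases LocC_nb hT z hz x hx with ⟨b, rfl, hb, _⟩ | ⟨h, rfl, h1⟩ <;>
    rcases LocC_nb hT z hz y hy with ⟨c, rfl, hc, _⟩ | ⟨k, rfl, k1⟩
  · exact (LocC_ll hT hb hc hxy).elim
  · simp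
  · simp
  · exact (LocC_rr h1 k1 hxy).elim

/-- the 4-cycle starting at a vertex of `G` -/
private theorem LocC_four {G : SimpleGraph V} {col : V → Fin 3} (hT : Tri G col)
    (hX : HexLoc G col) (z : V)
    (hz : col z = 2) (a b c d : HV G col) (ha : (hexG G col).Adj (Sum.inl z) a)
    (hb : (hexG G col).Adj (Sum.inl z) b) (hc : (hexG G col).Adj (Sum.inl z) c)
    (hd : (hexG G col).Adj (Sum.inl z) d) (hab : (hexG G col).Adj a b)
    (hbc : (hexG G col).Adj b c) (hcd : (hexG G col).Adj c d) (hda : (hexG G col).Adj d a)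
    (hac : a ≠ c) (hbd : b ≠ d) (hl : a.isLeft = true) : False := by
  have n1 := LocC_ne hT z hz a b ha hb hab
  have n2 := LocC_ne hT z hz b c hb hc hbc
  have n3 := LocC_ne hT z hz c d hc hd hcd
  rcases LocC_nb hT z hz a ha with ⟨b1, rfl, hb1, zb1⟩ | ⟨h, rfl, h1⟩
  swap
  · simp at hl
  rcases LocC_nb hT z hz b hb with ⟨c1, rfl, hc1, _⟩ | ⟨h, rfl, h1⟩
  · simp at n1
  rcases LocC_nb hT z hz c hc with ⟨b2, rfl, hb2, zb2⟩ | ⟨k, rfl, k1⟩
  swap
  · simp at n2
  rcases LocC_nb hT z hz d hd with ⟨c1, rfl, hc1, _⟩ | ⟨k, rfl, k1⟩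
  · simp at n3
  have e1 := LocC_lr hb1 hab
  have e2 := LocC_lr hb2 hbc.symm
  have e3 := LocC_lr hb2 hcd
  have e4 := LocC_lr hb1 hda.symm
  have f1 : G.Adj z h.1.1 := by
    have := h.2.2.2.symm
    rwa [h1] at this
  have f2 : G.Adj z k.1.1 := by
    have := k.2.2.2.symm
    rwa [k1] at this
  refine hX.c4 z hz b1 b2 h.1.1 k.1.1 zb1 zb2 f1 f2 e1 e2.symm e3 e4.symm ?_ ?_
  · rintro rfl
    exact hac rfl
  · intro hh
    refine hbd ?_
    congr 1
    exact Subtype.ext (Prod.ext hh (by rw [h1, k1]))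

theorem locC4 {G : SimpleGraph V} {col : V → Fin 3} (hT : Tri G col) (hX : HexLoc G col) (z : V)
    (hz : col z = 2) (a b c d : HV G col) (ha : (hexG G col).Adj (Sum.inl z) a)
    (hb : (hexG G col).Adj (Sum.inl z) b) (hc : (hexG G col).Adj (Sum.inl z) c)
    (hd : (hexG G col).Adj (Sum.inl z) d) (hab : (hexG G col).Adj a b)
    (hbc : (hexG G col).Adj b c) (hcd : (hexG G col).Adj c d) (hda : (hexG G col).Adj d a)
    (hac : a ≠ c) (hbd : b ≠ d) : (hexG G col).Adj a c ∨ (hexG G col).Adj b d := by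
  exfalso
  by_cases hl : a.isLeft = true
  · exact LocC_four hT hX z hz a b c d ha hb hc hd hab hbc hcd hda hac hbd hl
  · have n1 := LocC_ne hT z hz a b ha hb hab
    have hl' : b.isLeft = true := by
      revert n1 hl
      generalize a.isLeft = x
      generalize b.isLeft = y
      revert x y
      decide
    exact LocC_four hT hX z hz b c d a hb hc hd ha hbc hcd hda hab hbd (Ne.symm hac) hl'

theorem locC5 {G : SimpleGraph V} {col : V → Fin 3} (hT : Tri G col) (hX : HexLoc G col) (z : V)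
    (hz : col z = 2) (a b c d e : HV G col) (ha : (hexG G col).Adj (Sum.inl z) a)
    (hb : (hexG G col).Adj (Sum.inl z) b) (hc : (hexG G col).Adj (Sum.inl z) c)
    (hd : (hexG G col).Adj (Sum.inl z) d) (he : (hexG G col).Adj (Sum.inl z) e)
    (hab : (hexG G col).Adj a b)
    (hbc : (hexG G col).Adj b c) (hcd : (hexG G col).Adj c d) (hde : (hexG G col).Adj d e)
    (hea : (hexG G col).Adj e a)
    (hac : a ≠ c) (had : a ≠ d) (hbd : b ≠ d) (hbe : b ≠ e) (hce : c ≠ e) :
    (hexG G col).Adj a c ∨ (hexG G col).Adj a d ∨ (hexG G col).Adj b d ∨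
      (hexG G col).Adj b e ∨ (hexG G col).Adj c e := by
  exfalso
  have n1 := LocC_ne hT z hz a b ha hb hab
  have n2 := LocC_ne hT z hz b c hb hc hbc
  have n3 := LocC_ne hT z hz c d hc hd hcd
  have n4 := LocC_ne hT z hz d e hd he hde
  have n5 := LocC_ne hT z hz e a he ha hea
  revert n1 n2 n3 n4 n5
  generalize a.isLeft = x1
  generalize b.isLeft = x2
  generalize c.isLeft = x3
  generalize d.isLeft = x4
  generalize e.isLeft = x5
  cases x1 <;> cases x2 <;> cases x3 <;> cases x4 <;> cases x5 <;> simp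

end Pool.H90TC
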