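import Pool.Agent.H90.TC.Hex.Defs

set_option autoImplicit false

/-!
The links of the hypotenuses `z = (a0,c0)`. The neighbours are `inl a0`, `inl c0`, `inl b` with
`col b = 1` adjacent to `a0, c0`, and hypotenuses `(a0,c)`, `c ≠ c0`, with a witness `b` adjacent to
`a0, c0, c`; the witness is unique: two witnesses give a 4-cycle in the link of `a0` (`a4`).
Adjacencies among the neighbours: `inl a0` and all `(a0,c)`; `inl c0` and all `inl b`; `inl b` and
`(a0,c)` iff `b` is adjacent to `c`, i.e. `b` is the witness of `(a0,c)`; `(a0,c)`, `(a0,c')` with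
`c ≠ c'` iff they have the same witness (`witness_eq`: if `b'' ` is adjacent to `a0, c, c'`, and `b, b'` are
the witnesses, different, then: `b'' = b` or `b'' = b'` gives `b = b'` by uniqueness, otherwise
`b c0 b' c' b'' c` is a 6-cycle in the link of `a0`, contradiction to `a6`). No others:
`inl a0, inl c0` not adjacent, `inl a0, inl b` not (colour 0), `inl b, inl b'` not (both colour 1),
`inl c0` and `(a0,c)` not (`c ≠ c0`).

Let `x1, ..., xk` be a cycle of length 4 or 5 in the link. If it contains `inl c0` then its two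
neighbours are `inl b ≠ inl b'`; for `k = 4` the fourth element is adjacent to both: it is `inl c0` or a
hypotenuse with the two witnesses `b, b'`, contradiction; for `k = 5` the two others `x, y` are
adjacent to each other, `x` to `inl b`, `y` to `inl b'`, both different from `inl c0`, so they are
hypotenuses with witnesses `b`, `b'`, adjacent, so `b = b'`: contradiction. If it does not contain
`inl c0`: its elements are `inl a0`, `inl b`'s and hypotenuses. All hypotenuses in the cycle have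
the same witness or two of them at distance two are the neighbours of `inl a0`; in all cases there
is a chord: for `k = 4`: the elements `inl` are pairwise not adjacent, so at most two (opposite) are
`inl`; if `x1, x3` are both `inl` then `x2, x4` are hypotenuses adjacent to both of them; one of
`x1, x3` is `inl b` (they are different, at most one is `inl a0`), so `x2, x4` have the same witness `b`
and are adjacent. If only `x1` is `inl` then `x2, x3, x4` are hypotenuses, `x2 x3`, `x3 x4` adjacent, so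
all have the same witness and `x2, x4` are adjacent; the same if none is `inl`. For `k = 5`: at most two
are `inl` and they are not adjacent in the cycle; so there are three consecutive elements
`x, y, w` with `x, w` hypotenuses and `y` a hypotenuse or `inl b`: if some three consecutive elements
are hypotenuses use the first argument; otherwise the cycle is `h, inl, h, inl, h'`-like with two
`inl`'s, one of which is `inl b`, and its two neighbours are hypotenuses with the same witness `b`.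
-/

namespace Pool.H90TC

open Pool.H90SY

universe u

variable {V : Type u}

theorem witness_eq {G : SimpleGraph V} {col : V → Fin 3} (hT : Tri G col) (hX : HexLoc G col)
    (a0 c0 c c' b b' b'' : V) (ha : col a0 = 0)
    (h1 : G.Adj a0 c0) (h2 : G.Adj a0 c) (h3 : G.Adj a0 c')
    (hb : G.Adj b a0 ∧ G.Adj b c0 ∧ G.Adj b c) (hb' : G.Adj b' a0 ∧ G.Adj b' c0 ∧ G.Adj b' c')
    (hb'' : G.Adj b'' a0 ∧ G.Adj b'' c ∧ G.Adj b'' c') (h4 : c0 ≠ c) (h5 : c0 ≠ c')
    (h6 : c ≠ c') : b = b' ∧ b = b'' := by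
  obtain ⟨p1, p2, p3⟩ := hb
  obtain ⟨q1, q2, q3⟩ := hb'
  obtain ⟨r1, r2, r3⟩ := hb''
  have U : ∀ x y s t : V, G.Adj a0 s → G.Adj a0 t → s ≠ t → G.Adj x a0 → G.Adj y a0 →
      G.Adj x s → G.Adj y s → G.Adj x t → G.Adj y t → x = y := by
    intro x y s t g1 g2 g3 g4 g5 g6 g7 g8 g9
    by_contra hne
    exact hX.a4 a0 ha x y s t g4.symm g5.symm g1 g2 g6 g7.symm g9 g8.symm hne g3
  by_cases e1 : b'' = b
  · have := U b b' c0 c' h1 h3 h5 p1 q1 p2 q2 (e1 ▸ r3) q3
    exact ⟨this, e1.symm⟩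
  by_cases e2 : b'' = b'
  · have := U b b' c0 c h1 h2 h4 p1 q1 p2 q2 p3 (e2 ▸ r2)
    exact ⟨this, this.trans e2.symm⟩
  by_cases e3 : b = b'
  · have := U b b'' c c' h2 h3 h6 p1 r1 p3 r2 (e3 ▸ q3) r3
    exact ⟨e3, this⟩
  · exact (hX.a6 a0 ha b b' b'' c0 c' c p1.symm q1.symm r1.symm h1 h3 h2 p2 q2.symm q3 r3.symm r2
      p3.symm e3 (Ne.symm e1) (Ne.symm e2) h5 h4 (Ne.symm h6)).elim

/-- an element of the link with witness `b` -/
private def LocH_VT (G : SimpleGraph V) (col : V → Fin 3) (z : Hyp G col) (x : HV G col) (b : V) :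
    Prop :=
  (col b = 1 ∧ G.Adj b z.1.1 ∧ G.Adj b z.1.2) ∧
    (x = Sum.inl b ∨ ∃ k : Hyp G col, x = Sum.inr k ∧ k.1.1 = z.1.1 ∧ z.1.2 ≠ k.1.2 ∧
      G.Adj b k.1.2)

private theorem LocH_cls {G : SimpleGraph V} {col : V → Fin 3} (z : Hyp G col) (x : HV G col)
    (h : (hexG G col).Adj (Sum.inr z) x) :
    x = Sum.inl z.1.1 ∨ x = Sum.inl z.1.2 ∨ ∃ b, LocH_VT G col z x b := by
  rcases x with v | k
  · have h' : vh G col v z := h
    rcases h' with h1 | h1 | h1
    · left; rw [h1]
    · right; left; rw [h1]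
    · right; right
      exact ⟨v, h1, Or.inl rfl⟩
  · obtain ⟨h1, h2, b, h3, h4, h5, h6⟩ := h
    right; right
    exact ⟨b, ⟨h3, h4, h5⟩, Or.inr ⟨k, rfl, h1.symm, h2, h6⟩⟩

private theorem LocH_uq {G : SimpleGraph V} {col : V → Fin 3} (hX : HexLoc G col) (z : Hyp G col)
    {b b' c : V} (hc : G.Adj z.1.1 c) (hne : z.1.2 ≠ c) (hb : G.Adj b z.1.1 ∧ G.Adj b z.1.2)
    (hb' : G.Adj b' z.1.1 ∧ G.Adj b' z.1.2) (h1 : G.Adj b c) (h2 : G.Adj b' c) : b = b' := by
  by_contra h
  exact hX.a4 z.1.1 z.2.1 b b' z.1.2 c hb.1.symm hb'.1.symm z.2.2.2 hc hb.2 hb'.2.symm h2 h1.symm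
    h hne

private theorem LocH_eq {G : SimpleGraph V} {col : V → Fin 3} (hT : Tri G col) (hX : HexLoc G col)
    {z : Hyp G col} {x y : HV G col} {b b' : V} (hx : LocH_VT G col z x b)
    (hy : LocH_VT G col z y b') (h : (hexG G col).Adj x y) : b = b' := by
  obtain ⟨⟨c1, a1, a2⟩, hx⟩ := hx
  obtain ⟨⟨c2, a3, a4⟩, hy⟩ := hy
  rcases hx with rfl | ⟨k, rfl, k1, k2, k3⟩ <;> rcases hy with rfl | ⟨l, rfl, l1, l2, l3⟩
  · have h' : G.Adj b b' := h.1
    exact absurd (c1.trans c2.symm) (hT.proper b b' h')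
  · have h' : vh G col b l := h
    rcases h' with h1 | h1 | ⟨-, -, h1⟩
    · have := l.2.1
      rw [← h1, c1] at this
      exact absurd this (by decide)
    · have := l.2.2.1
      rw [← h1, c1] at this
      exact absurd this (by decide)
    · exact LocH_uq hX z (l1 ▸ l.2.2.2) l2 ⟨a1, a2⟩ ⟨a3, a4⟩ h1 l3
  · have h' : vh G col b' k := h
    rcases h' with h1 | h1 | ⟨-, -, h1⟩
    · have := k.2.1
      rw [← h1, c2] at this
      exact absurd this (by decide)
    · have := k.2.2.1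
      rw [← h1, c2] at this
      exact absurd this (by decide)
    · exact LocH_uq hX z (k1 ▸ k.2.2.2) k2 ⟨a1, a2⟩ ⟨a3, a4⟩ k3 h1
  · obtain ⟨h1, h2, b'', h3, h4, h5, h6⟩ := h
    exact (witness_eq hT hX z.1.1 z.1.2 k.1.2 l.1.2 b b' b'' z.2.1 z.2.2.2 (k1 ▸ k.2.2.2)
      (l1 ▸ l.2.2.2) ⟨a1, a2, k3⟩ ⟨a3, a4, l3⟩ ⟨k1 ▸ h4, h5, h6⟩ k2 l2 h2).1

private theorem LocH_adj {G : SimpleGraph V} {col : V → Fin 3} {z : Hyp G col} {x y : HV G col}
    {b : V} (hx : LocH_VT G col z x b) (hy : LocH_VT G col z y b) (hne : x ≠ y) :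
    (hexG G col).Adj x y := by
  obtain ⟨⟨c1, a1, a2⟩, hx⟩ := hx
  obtain ⟨-, hy⟩ := hy
  rcases hx with rfl | ⟨k, rfl, k1, k2, k3⟩ <;> rcases hy with rfl | ⟨l, rfl, l1, l2, l3⟩
  · exact absurd rfl hne
  · exact Or.inr (Or.inr ⟨c1, l1 ▸ a1, l3⟩)
  · exact Or.inr (Or.inr ⟨c1, k1 ▸ a1, k3⟩)
  · refine ⟨k1.trans l1.symm, fun e => hne ?_, b, c1, k1 ▸ a1, k3, l3⟩
    congr 1
    exact Subtype.ext (Prod.ext (k1.trans l1.symm) e)

private theorem LocH_A {G : SimpleGraph V} {col : V → Fin 3} {z : Hyp G col} {v : V}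
    (h : (hexG G col).Adj (Sum.inl z.1.1) (Sum.inl v)) : False := h.2.1 z.2.1

private theorem LocH_C {G : SimpleGraph V} {col : V → Fin 3} {z : Hyp G col} {x : HV G col} {b : V}
    (h : (hexG G col).Adj (Sum.inl z.1.2) x) (hx : LocH_VT G col z x b) : x = Sum.inl b := by
  obtain ⟨-, hx⟩ := hx
  rcases hx with hx | ⟨k, rfl, k1, k2, k3⟩
  · exact hx
  · exfalso
    have h' : vh G col z.1.2 k := h
    have hz := z.2.2.1
    rcases h' with h1 | h1 | ⟨h1, -⟩
    · have := k.2.1
      rw [← h1, hz] at this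
      exact absurd this (by decide)
    · exact k2 h1
    · rw [hz] at h1
      exact absurd h1 (by decide)

/-- the neighbours of `inl c0` in the link -/
private theorem LocH_CB {G : SimpleGraph V} {col : V → Fin 3} {z : Hyp G col} {x : HV G col}
    (hz : (hexG G col).Adj (Sum.inr z) x) (h : (hexG G col).Adj (Sum.inl z.1.2) x) :
    ∃ b, x = Sum.inl b ∧ LocH_VT G col z x b := by
  rcases LocH_cls z x hz with rfl | rfl | ⟨b, hb⟩
  · exact (LocH_A h.symm).elim
  · exact (h.ne rfl).elim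
  · exact ⟨b, LocH_C h hb, hb⟩

/-- a neighbour of `inl b`, not `inl c0` -/
private theorem LocH_BV {G : SimpleGraph V} {col : V → Fin 3} {z : Hyp G col} {x : HV G col}
    {b : V} (hz : (hexG G col).Adj (Sum.inr z) x) (h : (hexG G col).Adj (Sum.inl b) x)
    (hx : x ≠ Sum.inl z.1.2) : ∃ b', LocH_VT G col z x b' := by
  rcases LocH_cls z x hz with rfl | rfl | hb
  · exact (LocH_A h.symm).elim
  · exact (hx rfl).elim
  · exact hb

private theorem LocH_noC4 {G : SimpleGraph V} {col : V → Fin 3} (hT : Tri G col)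
    (hX : HexLoc G col) (z : Hyp G col) (a b c d : HV G col)
    (hb : (hexG G col).Adj (Sum.inr z) b) (hc : (hexG G col).Adj (Sum.inr z) c)
    (hd : (hexG G col).Adj (Sum.inr z) d) (hab : (hexG G col).Adj a b)
    (hbc : (hexG G col).Adj b c) (hcd : (hexG G col).Adj c d) (hda : (hexG G col).Adj d a)
    (hac : a ≠ c) (hbd : b ≠ d) (h : a = Sum.inl z.1.2) : False := by
  subst h
  obtain ⟨β, rfl, Vb⟩ := LocH_CB hb hab
  obtain ⟨δ, rfl, Vd⟩ := LocH_CB hd hda.symm
  obtain ⟨γ, Vc⟩ := LocH_BV hc hbc (Ne.symm hac)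
  have e1 := LocH_eq hT hX Vb Vc hbc
  have e2 := LocH_eq hT hX Vc Vd hcd
  exact hbd (by rw [e1, e2])

private theorem LocH_noC5 {G : SimpleGraph V} {col : V → Fin 3} (hT : Tri G col)
    (hX : HexLoc G col) (z : Hyp G col) (a b c d e : HV G col)
    (hb : (hexG G col).Adj (Sum.inr z) b) (hc : (hexG G col).Adj (Sum.inr z) c)
    (hd : (hexG G col).Adj (Sum.inr z) d) (he : (hexG G col).Adj (Sum.inr z) e)
    (hab : (hexG G col).Adj a b) (hbc : (hexG G col).Adj b c) (hcd : (hexG G col).Adj c d)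
    (hde : (hexG G col).Adj d e) (hea : (hexG G col).Adj e a)
    (hac : a ≠ c) (had : a ≠ d) (hbe : b ≠ e) (h : a = Sum.inl z.1.2) : False := by
  subst h
  obtain ⟨β, rfl, Vb⟩ := LocH_CB hb hab
  obtain ⟨ε, rfl, Ve⟩ := LocH_CB he hea.symm
  obtain ⟨γ, Vc⟩ := LocH_BV hc hbc (Ne.symm hac)
  obtain ⟨δ, Vd⟩ := LocH_BV hd hde.symm (Ne.symm had)
  have e1 := LocH_eq hT hX Vb Vc hbc
  have e2 := LocH_eq hT hX Vc Vd hcd
  have e3 := LocH_eq hT hX Vd Ve hde
  exact hbe (by rw [e1, e2, e3])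

private theorem LocH_AV {G : SimpleGraph V} {col : V → Fin 3} {z : Hyp G col} {x : HV G col}
    (hz : (hexG G col).Adj (Sum.inr z) x) (hx : x = Sum.inl z.1.2 → False) :
    x = Sum.inl z.1.1 ∨ ∃ b, LocH_VT G col z x b := by
  rcases LocH_cls z x hz with h | h | h
  · exact Or.inl h
  · exact (hx h).elim
  · exact Or.inr h

/-- two elements joined through one element with witnesses -/
private theorem LocH_two {G : SimpleGraph V} {col : V → Fin 3} (hT : Tri G col)
    (hX : HexLoc G col) {z : Hyp G col} {x y w : HV G col} (hx : ∃ b, LocH_VT G col z x b)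
    (hy : ∃ b, LocH_VT G col z y b) (hw : ∃ b, LocH_VT G col z w b)
    (h1 : (hexG G col).Adj x y) (h2 : (hexG G col).Adj y w) (hne : x ≠ w) :
    (hexG G col).Adj x w := by
  obtain ⟨β, Vx⟩ := hx
  obtain ⟨γ, Vy⟩ := hy
  obtain ⟨δ, Vw⟩ := hw
  have e1 := LocH_eq hT hX Vx Vy h1
  have e2 := LocH_eq hT hX Vy Vw h2
  subst e1; subst e2
  exact LocH_adj Vx Vw hne

theorem locH4 {G : SimpleGraph V} {col : V → Fin 3} (hT : Tri G col) (hX : HexLoc G col)
    (z : Hyp G col) (a b c d : HV G col) (ha : (hexG G col).Adj (Sum.inr z) a)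
    (hb : (hexG G col).Adj (Sum.inr z) b) (hc : (hexG G col).Adj (Sum.inr z) c)
    (hd : (hexG G col).Adj (Sum.inr z) d) (hab : (hexG G col).Adj a b)
    (hbc : (hexG G col).Adj b c) (hcd : (hexG G col).Adj c d) (hda : (hexG G col).Adj d a)
    (hac : a ≠ c) (hbd : b ≠ d) : (hexG G col).Adj a c ∨ (hexG G col).Adj b d := by
  rcases LocH_AV ha (LocH_noC4 hT hX z a b c d hb hc hd hab hbc hcd hda hac hbd) with eA | vA
  · have hV : ∀ x, (hexG G col).Adj (Sum.inr z) x → x ≠ a → (x = Sum.inl z.1.2 → False) →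
        ∃ b, LocH_VT G col z x b := fun x hx hne h =>
      (LocH_AV hx h).resolve_left fun h1 => hne (h1.trans eA.symm)
    have vB := hV b hb hab.ne' (LocH_noC4 hT hX z b c d a hc hd ha hbc hcd hda hab hbd
      (Ne.symm hac))
    have vC := hV c hc (Ne.symm hac) (LocH_noC4 hT hX z c d a b hd ha hb hcd hda hab hbc
      (Ne.symm hac) (Ne.symm hbd))
    have vD := hV d hd hda.ne (LocH_noC4 hT hX z d a b c ha hb hc hda hab hbc hcd
      (Ne.symm hbd) hac)
    right
    exact LocH_two hT hX vB vC vD hbc hcd hbd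
  · rcases LocH_AV hb (LocH_noC4 hT hX z b c d a hc hd ha hbc hcd hda hab hbd
        (Ne.symm hac)) with eB | vB
    · have hV : ∀ x, (hexG G col).Adj (Sum.inr z) x → x ≠ b → (x = Sum.inl z.1.2 → False) →
          ∃ b, LocH_VT G col z x b := fun x hx hne h =>
        (LocH_AV hx h).resolve_left fun h1 => hne (h1.trans eB.symm)
      have vC := hV c hc hbc.ne' (LocH_noC4 hT hX z c d a b hd ha hb hcd hda hab hbc
        (Ne.symm hac) (Ne.symm hbd))
      have vD := hV d hd (Ne.symm hbd) (LocH_noC4 hT hX z d a b c ha hb hc hda hab hbc hcd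
        (Ne.symm hbd) hac)
      left
      exact (LocH_two hT hX vC vD vA hcd hda (Ne.symm hac)).symm
    · rcases LocH_AV hc (LocH_noC4 hT hX z c d a b hd ha hb hcd hda hab hbc
          (Ne.symm hac) (Ne.symm hbd)) with eC | vC
      · have vD := (LocH_AV hd (LocH_noC4 hT hX z d a b c ha hb hc hda hab hbc hcd
          (Ne.symm hbd) hac)).resolve_left fun h1 => hcd.ne (eC.trans h1.symm)
        right
        exact (LocH_two hT hX vD vA vB hda hab (Ne.symm hbd)).symm
      · left
        exact LocH_two hT hX vA vB vC hab hbc hac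


theorem locH5 {G : SimpleGraph V} {col : V → Fin 3} (hT : Tri G col) (hX : HexLoc G col)
    (z : Hyp G col) (a b c d e : HV G col) (ha : (hexG G col).Adj (Sum.inr z) a)
    (hb : (hexG G col).Adj (Sum.inr z) b) (hc : (hexG G col).Adj (Sum.inr z) c)
    (hd : (hexG G col).Adj (Sum.inr z) d) (he : (hexG G col).Adj (Sum.inr z) e)
    (hab : (hexG G col).Adj a b)
    (hbc : (hexG G col).Adj b c) (hcd : (hexG G col).Adj c d) (hde : (hexG G col).Adj d e)
    (hea : (hexG G col).Adj e a)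
    (hac : a ≠ c) (had : a ≠ d) (hbd : b ≠ d) (hbe : b ≠ e) (hce : c ≠ e) :
    (hexG G col).Adj a c ∨ (hexG G col).Adj a d ∨ (hexG G col).Adj b d ∨
      (hexG G col).Adj b e ∨ (hexG G col).Adj c e := by
  have nA := LocH_noC5 hT hX z a b c d e hb hc hd he hab hbc hcd hde hea hac had hbe
  have nB := LocH_noC5 hT hX z b c d e a hc hd he ha hbc hcd hde hea hab hbd hbe (Ne.symm hac)
  have nC := LocH_noC5 hT hX z c d e a b hd he ha hb hcd hde hea hab hbc hce (Ne.symm hac)
    (Ne.symm hbd)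
  have nD := LocH_noC5 hT hX z d e a b c he ha hb hc hde hea hab hbc hcd (Ne.symm had)
    (Ne.symm hbd) (Ne.symm hce)
  have nE := LocH_noC5 hT hX z e a b c d ha hb hc hd hea hab hbc hcd hde (Ne.symm hbe)
    (Ne.symm hce) had
  have hV : ∀ x y, (hexG G col).Adj (Sum.inr z) x → (x = Sum.inl z.1.2 → False) → x ≠ y →
      y = Sum.inl z.1.1 → ∃ b, LocH_VT G col z x b := fun x y hx h hne hy =>
    (LocH_AV hx h).resolve_left fun h1 => hne (h1.trans hy.symm)
  rcases LocH_AV ha nA with eA | vA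
  · -- b c d
    right; right; left
    exact LocH_two hT hX (hV b a hb nB hab.ne' eA) (hV c a hc nC (Ne.symm hac) eA)
      (hV d a hd nD (Ne.symm had) eA) hbc hcd hbd
  rcases LocH_AV hb nB with eB | vB
  · -- c d e
    right; right; right; right
    exact LocH_two hT hX (hV c b hc nC hbc.ne' eB) (hV d b hd nD (Ne.symm hbd) eB)
      (hV e b he nE (Ne.symm hbe) eB) hcd hde hce
  rcases LocH_AV hc nC with eC | vC
  · -- d e a
    right; left
    exact (LocH_two hT hX (hV d c hd nD hcd.ne' eC) (hV e c he nE (Ne.symm hce) eC) vA hde hea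
      (Ne.symm had)).symm
  · left
    exact LocH_two hT hX vA vB vC hab hbc hac

end Pool.H90TC
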