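import Pool.Agent.H90.TC.Hex.Defs

set_option autoImplicit false

/-!
Coverings of the subdivision give coverings of the complex.

Let `Cov (hexG G col) W f E` be a covering of the subdivision. Let `W' = {w : W // ∃ v, f w = inl v}`,
`f' w = v`. Define `E' w w'` for adjacent `v = f' w`, `v' = f' w'` (in `G`) as
* `E w w'` if both colours are different from 0;
* otherwise: there is `x : W`, `f x = inr h`, with `E w x`, `E x w'` (so for `v, v'` of colours 0, 2
  necessarily `h = (v,v')` or `(v',v)`, since an `inl` of colour 0 and one of colour 2 have only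
  this common neighbour; for `v, v'` of colours 0, 1: `h = (a,c)` with `c` adjacent to both).
A uniform definition: `E' w w' := G.Adj v v' ∧ (E w w' ∨ ∃ x h, f x = inr h ∧ E w x ∧ E x w')` with the
first alternative only for colours ≠ 0 (it holds automatically, as `E` implies adjacency in `hexG`),
the second one only if one colour is 0: put `(col v = 0 ∨ col v' = 0)` into it.

(A) Independence: let `col v = 0`, `col v' = 1`, `E' w w'` by `x` over `h = (v,c)`, and let `c'` be another
vertex adjacent to `v, v'`, `col c' = 2`. Let `x'` be the neighbour of `w` over `(v,c')`. Then `E x' w'`: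
`(v,c)`, `(v,c')` are adjacent in `hexG` (witness `v'`), so `E x x'` by `tri` at `w`; `v'` is adjacent
to `(v,c')`, so `E w' x'` by `tri` at `x`.
`symm`, `adj`: clear (`Cov.adj` and colours give `G.Adj`; in the definition it is included).
`ex`: colours 0, 2: the hypotenuse exists; colours 0, 1: `pure` gives `c` adjacent to both, `proper`
gives `col c = 2`; lift twice with `ex`. `uniq`: colours 0, 1: two witnesses `x` over `(a,c)`, `x'` over
`(a,c')`: by (A) one can take the same hypotenuse for both, then `uniq` twice. The same for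
colours 0, 2. `tri`: `v, v', v''` pairwise adjacent, so the colours are 0, 1, 2 in some order, let
`a, b, c` be the vertices and `x` over `(a,c)` (by (A) we can use `c` for the pair `a, b`):
- center `a`: `x` is adjacent to `w_b` (by (A)) and to `w_c`, and `b, c` are adjacent in `hexG`: `tri` at
  `x`.
- center `b`: `w_a` by `x` over `(a,c)`: `E w_b x`, `E x w_a`; `x`, `w_c` are neighbours of `w_b` with
  adjacent images: `E x w_c`, so `E' w_a w_c`.
- center `c`: `w_a` by `x`: `E w_c x`, `E x w_a`; `x, w_b` neighbours of `w_c` with adjacent images: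
  `E x w_b`, so `E' w_a w_b`.

Injectivity for `W`: for `w` over `inr (a,c)` let `ret w` be the neighbour over `inl a` (colour 0), for
`w ∈ W'` let `ret w = w`. If `E w y` then `ret w = ret y` or `E' (ret w) (ret y)`: both in `W'`: `inl b`,
`inl c` adjacent: `E'` by definition. `w` over `inl u`, `y` over `inr (a,c)`: `u = a`: `ret y = w` by
`uniq`; `u = c`: `E'` by `y`; `col u = 1`: `E'` by `y` (`u` adjacent to `a`). Both over hypotenuses
`(a,c)`, `(a,c')`: `inl a` is adjacent to both, so `tri` at `w` for `ret w` and `y` gives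
`E (ret w) y`, hence `ret y = ret w`. So the relation `E` from `w0` to `p` gives the relation `E'` from
`ret w0` to `ret p`. If `f p = f q` then `f' (ret p) = f' (ret q)`, so `ret p = ret q` by `ScInj G` for
`W'`, and `p = q` by `uniq` (or trivially).
-/

namespace Pool.H90TC

open Pool.H90SY

universe u

variable {V : Type u}

private theorem HexSc_cases {G : SimpleGraph V} {col : V → Fin 3} {u : V} {h : Hyp G col}
    (hu : vh G col u h) : (u = h.1.1 ∧ col u = 0) ∨ (u = h.1.2 ∧ col u = 2) ∨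
      (col u = 1 ∧ G.Adj u h.1.1 ∧ G.Adj u h.1.2) := by
  rcases hu with e | e | e
  · left; refine ⟨e, ?_⟩; rw [e]; exact h.2.1
  · right; left; refine ⟨e, ?_⟩; rw [e]; exact h.2.2.1
  · exact Or.inr (Or.inr e)

/-- two hypotenuses adjacent to the same edge with an end of colour 0 -/
private theorem HexSc_hh {G : SimpleGraph V} {col : V → Fin 3} (hT : Tri G col) {u v : V}
    {h k : Hyp G col} (huv : G.Adj u v) (hc : col u = 0 ∨ col v = 0) (h1 : vh G col u h)
    (h2 : vh G col v h) (k1 : vh G col u k) (k2 : vh G col v k) :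
    h = k ∨ (hexG G col).Adj (Sum.inr h) (Sum.inr k) := by
  have key : ∀ u v : V, G.Adj u v → col u = 0 → vh G col u h → vh G col v h → vh G col u k →
      vh G col v k → h = k ∨ (hexG G col).Adj (Sum.inr h) (Sum.inr k) := by
    intro u v huv hu h1 h2 k1 k2
    have hne := hT.proper u v huv
    have a1 : u = h.1.1 := by
      rcases HexSc_cases h1 with ⟨e, -⟩ | ⟨-, e⟩ | ⟨e, -⟩
      · exact e
      · rw [hu] at e; exact absurd e (by decide)
      · rw [hu] at e; exact absurd e (by decide)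
    have a2 : u = k.1.1 := by
      rcases HexSc_cases k1 with ⟨e, -⟩ | ⟨-, e⟩ | ⟨e, -⟩
      · exact e
      · rw [hu] at e; exact absurd e (by decide)
      · rw [hu] at e; exact absurd e (by decide)
    have e0 : h.1.1 = k.1.1 := a1.symm.trans a2
    rcases HexSc_cases h2 with ⟨e, e'⟩ | ⟨e, e'⟩ | ⟨e, b1, b2⟩
    · exact absurd (hu.trans e'.symm) hne
    · left
      rcases HexSc_cases k2 with ⟨f, f'⟩ | ⟨f, f'⟩ | ⟨f, -⟩
      · rw [e'] at f'; exact absurd f' (by decide)
      · exact Subtype.ext (Prod.ext e0 (e.symm.trans f))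
      · rw [e'] at f; exact absurd f (by decide)
    · rcases HexSc_cases k2 with ⟨f, f'⟩ | ⟨f, f'⟩ | ⟨f, c1, c2⟩
      · rw [e] at f'; exact absurd f' (by decide)
      · rw [e] at f'; exact absurd f' (by decide)
      · by_cases hc : h.1.2 = k.1.2
        · left; exact Subtype.ext (Prod.ext e0 hc)
        · right
          exact ⟨e0, hc, v, e, b1, b2, c2⟩
  rcases hc with hc | hc
  · exact key u v huv hc h1 h2 k1 k2
  · exact key v u huv.symm hc h2 h1 k2 k1

private theorem HexSc_ex {G : SimpleGraph V} {col : V → Fin 3} (hT : Tri G col) {u v : V}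
    (huv : G.Adj u v) (hc : col u = 0 ∨ col v = 0) :
    ∃ h : Hyp G col, vh G col u h ∧ vh G col v h := by
  have key : ∀ u v : V, G.Adj u v → col u = 0 → ∃ h : Hyp G col, vh G col u h ∧ vh G col v h := by
    intro u v huv hu
    have hne := hT.proper u v huv
    by_cases hv : col v = 2
    · exact ⟨⟨(u, v), hu, hv, huv⟩, Or.inl rfl, Or.inr (Or.inl rfl)⟩
    · have hv1 : col v = 1 := by
        rw [hu] at hne
        revert hne hv
        generalize col v = y
        revert y
        decide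
      obtain ⟨c, c1, c2⟩ := hT.pure u v huv
      have d1 := hT.proper u c c1
      have d2 := hT.proper v c c2
      have hc : col c = 2 := by
        rw [hu] at d1
        rw [hv1] at d2
        revert d1 d2
        generalize col c = y
        revert y
        decide
      exact ⟨⟨(u, c), hu, hc, c1⟩, Or.inl rfl, Or.inr (Or.inr ⟨hv1, huv.symm, c2⟩)⟩
  rcases hc with hc | hc
  · exact key u v huv hc
  · obtain ⟨h, h1, h2⟩ := key v u huv.symm hc
    exact ⟨h, h2, h1⟩

/-- the hypotenuse of a triangle -/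
private theorem HexSc_tri {G : SimpleGraph V} {col : V → Fin 3} (hT : Tri G col) {u v w : V}
    (huv : G.Adj u v) (huw : G.Adj u w) (hvw : G.Adj v w) :
    ∃ h : Hyp G col, vh G col u h ∧ vh G col v h ∧ vh G col w h := by
  have key : ∀ a b c : V, G.Adj a b → G.Adj a c → G.Adj b c → col a = 0 → col b = 1 → col c = 2 →
      ∃ h : Hyp G col, vh G col a h ∧ vh G col b h ∧ vh G col c h := by
    intro a b c hab hac hbc ha hb hc
    exact ⟨⟨(a, c), ha, hc, hac⟩, Or.inl rfl, Or.inr (Or.inr ⟨hb, hab.symm, hbc⟩), Or.inr (Or.inl rfl)⟩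
  have n1 := hT.proper u v huv
  have n2 := hT.proper u w huw
  have n3 := hT.proper v w hvw
  have hcase : ∀ x y z : Fin 3, x ≠ y → x ≠ z → y ≠ z →
      (x = 0 ∧ y = 1 ∧ z = 2) ∨ (x = 0 ∧ y = 2 ∧ z = 1) ∨ (x = 1 ∧ y = 0 ∧ z = 2) ∨
      (x = 1 ∧ y = 2 ∧ z = 0) ∨ (x = 2 ∧ y = 0 ∧ z = 1) ∨ (x = 2 ∧ y = 1 ∧ z = 0) := by
    decide
  rcases hcase _ _ _ n1 n2 n3 with ⟨a, b, c⟩ | ⟨a, b, c⟩ | ⟨a, b, c⟩ | ⟨a, b, c⟩ | ⟨a, b, c⟩ | ⟨a, b, c⟩
  · exact key u v w huv huw hvw a b c
  · obtain ⟨h, h1, h2, h3⟩ := key u w v huw huv hvw.symm a c b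
    exact ⟨h, h1, h3, h2⟩
  · obtain ⟨h, h1, h2, h3⟩ := key v u w huv.symm hvw huw b a c
    exact ⟨h, h2, h1, h3⟩
  · obtain ⟨h, h1, h2, h3⟩ := key w u v huw.symm hvw.symm huv c a b
    exact ⟨h, h2, h3, h1⟩
  · obtain ⟨h, h1, h2, h3⟩ := key v w u hvw huv.symm huw.symm b c a
    exact ⟨h, h3, h1, h2⟩
  · obtain ⟨h, h1, h2, h3⟩ := key w v u hvw.symm huw.symm huv.symm c b a
    exact ⟨h, h3, h2, h1⟩

section

variable {G : SimpleGraph V} {col : V → Fin 3} {W : Type u} {f : W → HV G col} {E : W → W → Prop}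

/-- the new edges -/
private def HexSc_E (G : SimpleGraph V) (col : V → Fin 3) (f : W → HV G col) (E : W → W → Prop)
    (w w' : W) : Prop :=
  ∃ v v' : V, f w = Sum.inl v ∧ f w' = Sum.inl v' ∧ G.Adj v v' ∧
    (E w w' ∨ ((col v = 0 ∨ col v' = 0) ∧ ∃ (x : W) (h : Hyp G col), f x = Sum.inr h ∧ E w x ∧ E x w'))

private theorem HexSc_A (hT : Tri G col) (hC : Cov (hexG G col) W f E) {a b x x' : W} {u v : V}
    {h k : Hyp G col} (ha : f a = Sum.inl u) (hb : f b = Sum.inl v) (hx : f x = Sum.inr h)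
    (hx' : f x' = Sum.inr k) (huv : G.Adj u v) (hc : col u = 0 ∨ col v = 0)
    (e1 : E a x) (e2 : E x b) (e3 : E a x') (hk : vh G col v k) : E x' b := by
  have h1 : vh G col u h := by
    have := hC.adj _ _ e1
    rw [ha, hx] at this
    exact this
  have h2 : vh G col v h := by
    have := hC.adj _ _ e2
    rw [hx, hb] at this
    exact this
  have k1 : vh G col u k := by
    have := hC.adj _ _ e3
    rw [ha, hx'] at this
    exact this
  rcases HexSc_hh hT huv hc h1 h2 k1 hk with e | e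
  · have : x = x' := hC.uniq a x x' e1 e3 (by rw [hx, hx', e])
    rw [← this]; exact e2
  · have e4 : E x x' := hC.tri a x x' e1 e3 (by rw [hx, hx']; exact e)
    refine hC.tri x x' b e4 e2 ?_
    rw [hx', hb]
    exact hk

private theorem HexSc_symm (hC : Cov (hexG G col) W f E) {a b : W} (h : HexSc_E G col f E a b) :
    HexSc_E G col f E b a := by
  obtain ⟨v, v', h1, h2, h3, h4⟩ := h
  refine ⟨v', v, h2, h1, h3.symm, ?_⟩
  rcases h4 with h4 | ⟨h4, x, k, h5, h6, h7⟩
  · exact Or.inl (hC.symm _ _ h4)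
  · exact Or.inr ⟨h4.symm, x, k, h5, hC.symm _ _ h7, hC.symm _ _ h6⟩

private theorem HexSc_cov (hT : Tri G col) (hC : Cov (hexG G col) W f E) :
    Cov G {w : W // ∃ v, f w = Sum.inl v} (fun w => w.2.choose)
      (fun a b => HexSc_E G col f E a.1 b.1) := by
  have hf : ∀ (w : {w : W // ∃ v, f w = Sum.inl v}), f w.1 = Sum.inl w.2.choose :=
    fun w => w.2.choose_spec
  refine ⟨fun a b h => HexSc_symm hC h, ?_, ?_, ?_, ?_⟩
  · rintro a b ⟨v, v', h1, h2, h3, -⟩
    have e1 := (hf a).symm.trans h1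
    have e2 := (hf b).symm.trans h2
    rw [Sum.inl.inj e1, Sum.inl.inj e2]
    exact h3
  · intro a v hv
    have hfa := hf a
    generalize a.2.choose = u at hv hfa
    by_cases hc : col u = 0 ∨ col v = 0
    · obtain ⟨h, h1, h2⟩ := HexSc_ex hT hv hc
      obtain ⟨x, hx1, hx2⟩ := hC.ex a.1 (Sum.inr h) (by rw [hfa]; exact h1)
      obtain ⟨b, hb1, hb2⟩ := hC.ex x (Sum.inl v) (by rw [hx2]; exact h2)
      refine ⟨⟨b, v, hb2⟩, ⟨u, v, hfa, hb2, hv, Or.inr ⟨hc, x, h, hx2, hx1, hb1⟩⟩, ?_⟩
      exact Sum.inl.inj ((hf ⟨b, v, hb2⟩).symm.trans hb2)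
    · push Not at hc
      obtain ⟨b, hb1, hb2⟩ := hC.ex a.1 (Sum.inl v) (by rw [hfa]; exact ⟨hv, hc.1, hc.2⟩)
      refine ⟨⟨b, v, hb2⟩, ⟨u, v, hfa, hb2, hv, Or.inl hb1⟩, ?_⟩
      exact Sum.inl.inj ((hf ⟨b, v, hb2⟩).symm.trans hb2)
  · rintro a b c ⟨u, v, h1, h2, h3, h4⟩ ⟨u', v', k1, k2, k3, k4⟩ hbc
    obtain rfl : u = u' := Sum.inl.inj (h1.symm.trans k1)
    obtain rfl : v = v' := by
      have e1 := Sum.inl.inj ((hf b).symm.trans h2)
      have e2 := Sum.inl.inj ((hf c).symm.trans k2)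
      exact e1.symm.trans (hbc.trans e2)
    apply Subtype.ext
    have hbc' : f b.1 = f c.1 := h2.trans k2.symm
    have hcol : E a.1 b.1 ∨ E a.1 c.1 → ¬ (col u = 0 ∨ col v = 0) := by
      intro h
      have h' : (hexG G col).Adj (Sum.inl u) (Sum.inl v) := by
        rcases h with h | h
        · have := hC.adj _ _ h
          rwa [h1, h2] at this
        · have := hC.adj _ _ h
          rwa [h1, k2] at this
      rintro (e | e)
      · exact h'.2.1 e
      · exact h'.2.2 e
    rcases h4 with h4 | ⟨h4, x, h, h5, h6, h7⟩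
    · rcases k4 with k4 | ⟨k4, -⟩
      · exact hC.uniq _ _ _ h4 k4 hbc'
      · exact absurd k4 (hcol (Or.inl h4))
    · rcases k4 with k4 | ⟨k4, y, k, k5, k6, k7⟩
      · exact absurd h4 (hcol (Or.inr k4))
      · have hk : vh G col v k := by
          have := hC.adj _ _ k7
          rw [k5, k2] at this
          exact this
        have := HexSc_A hT hC h1 h2 h5 k5 h3 h4 h6 h7 k6 hk
        exact hC.uniq _ _ _ this k7 hbc'
  · rintro a b c ⟨u, v, h1, h2, h3, h4⟩ ⟨u', w, k1, k2, k3, k4⟩ hbc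
    obtain rfl : u = u' := Sum.inl.inj (h1.symm.trans k1)
    have e1 := Sum.inl.inj ((hf b).symm.trans h2)
    have e2 := Sum.inl.inj ((hf c).symm.trans k2)
    rw [e1, e2] at hbc
    obtain ⟨h, a1, a2, a3⟩ := HexSc_tri hT h3 k3 hbc
    obtain ⟨x, hx1, hx2⟩ := hC.ex a.1 (Sum.inr h) (by rw [h1]; exact a1)
    have hxb : E x b.1 := by
      rcases h4 with h4 | ⟨h4, y, k, k5, k6, k7⟩
      · exact hC.tri _ _ _ hx1 h4 (by rw [hx2, h2]; exact a2)
      · exact HexSc_A hT hC h1 h2 k5 hx2 h3 h4 k6 k7 hx1 a2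
    have hxc : E x c.1 := by
      rcases k4 with k4 | ⟨k4, y, k, k5, k6, k7⟩
      · exact hC.tri _ _ _ hx1 k4 (by rw [hx2, k2]; exact a3)
      · exact HexSc_A hT hC h1 k2 k5 hx2 k3 k4 k6 k7 hx1 a3
    refine ⟨v, w, h2, k2, hbc, ?_⟩
    by_cases hc : col v = 0 ∨ col w = 0
    · exact Or.inr ⟨hc, x, h, hx2, hC.symm _ _ hxb, hxc⟩
    · left
      push Not at hc
      refine hC.tri _ _ _ hxb hxc ?_
      rw [h2, k2]
      exact ⟨hbc, hc.1, hc.2⟩

end

theorem hex_scInj {G : SimpleGraph V} {col : V → Fin 3} (hT : Tri G col) (hs : ScInj G) :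
    ScInj (hexG G col) := by
  intro W f E hC w0 p q hp hq hpq
  have hcov := HexSc_cov hT hC
  have hret : ∀ w : W, ∃ r : W, (∃ v, f r = Sum.inl v) ∧ ((∃ v, f w = Sum.inl v) → r = w) ∧
      ∀ h : Hyp G col, f w = Sum.inr h → E w r ∧ f r = Sum.inl h.1.1 := by
    intro w
    rcases hw : f w with v | h
    · exact ⟨w, ⟨v, hw⟩, fun _ => rfl, fun h hh => absurd hh (by simp)⟩
    · obtain ⟨r, h1, h2⟩ := hC.ex w (Sum.inl h.1.1) (by rw [hw]; exact Or.inl rfl)
      refine ⟨r, ⟨_, h2⟩, fun ⟨v, hv⟩ => absurd hv (by simp), fun k hk => ?_⟩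
      obtain rfl := Sum.inr.inj hk
      exact ⟨h1, h2⟩
  choose ret hr1 hr2 hr3 using hret
  have hstep : ∀ w y : W, E w y → ret w = ret y ∨ HexSc_E G col f E (ret w) (ret y) := by
    have half : ∀ (w y : W) (u : V) (h : Hyp G col), f w = Sum.inl u → f y = Sum.inr h → E w y →
        ret w = ret y ∨ HexSc_E G col f E (ret w) (ret y) := by
      intro w y u h hw hy hwy
      rw [hr2 w ⟨u, hw⟩]
      obtain ⟨h1, h2⟩ := hr3 y h hy
      have hv : vh G col u h := by
        have := hC.adj _ _ hwy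
        rw [hw, hy] at this
        exact this
      by_cases hu : u = h.1.1
      · left
        exact hC.uniq y w (ret y) (hC.symm _ _ hwy) h1 (by rw [hw, h2, hu])
      · right
        refine ⟨u, h.1.1, hw, h2, ?_, Or.inr ⟨Or.inr h.2.1, y, h, hy, hwy, h1⟩⟩
        rcases hv with e | e | e
        · exact absurd e hu
        · rw [e]; exact h.2.2.2.symm
        · exact e.2.1
    intro w y hwy
    rcases hw : f w with u | h
    · rcases hy : f y with v | k
      · right
        rw [hr2 w ⟨u, hw⟩, hr2 y ⟨v, hy⟩]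
        refine ⟨u, v, hw, hy, ?_, Or.inl hwy⟩
        have := hC.adj _ _ hwy
        rw [hw, hy] at this
        exact this.1
      · exact half w y u k hw hy hwy
    · rcases hy : f y with v | k
      · rcases half y w v h hy hw (hC.symm _ _ hwy) with e | e
        · exact Or.inl e.symm
        · exact Or.inr (HexSc_symm hC e)
      · left
        obtain ⟨h1, h2⟩ := hr3 w h hw
        obtain ⟨k1, k2⟩ := hr3 y k hy
        have hadj : (hexG G col).Adj (Sum.inr h) (Sum.inr k) := by
          have := hC.adj _ _ hwy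
          rwa [hw, hy] at this
        have e0 : h.1.1 = k.1.1 := hadj.1
        have h3 : E (ret w) y := hC.tri w (ret w) y h1 hwy (by
          rw [h2, hy, e0]; exact Or.inl rfl)
        exact hC.uniq y (ret w) (ret y) (hC.symm _ _ h3) k1 (by rw [h2, k2, e0])
  have hwalk : ∀ w : W, Relation.ReflTransGen E w0 w →
      Relation.ReflTransGen (fun a b : {w : W // ∃ v, f w = Sum.inl v} => HexSc_E G col f E a.1 b.1)
        ⟨ret w0, hr1 w0⟩ ⟨ret w, hr1 w⟩ := by
    intro w h
    induction h with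
    | refl => exact Relation.ReflTransGen.refl
    | @tail y z _ hyz ih =>
      rcases hstep y z hyz with e | e
      · have : (⟨ret z, hr1 z⟩ : {w : W // ∃ v, f w = Sum.inl v}) = ⟨ret y, hr1 y⟩ :=
          Subtype.ext e.symm
        rw [this]; exact ih
      · exact ih.tail e
  have hfin : f (ret p) = f (ret q) → ret p = ret q := by
    intro h
    have h1 := hs _ _ _ hcov _ _ _ (hwalk p hp) (hwalk q hq) (by
      have e1 := (hr1 p).choose_spec
      have e2 := (hr1 q).choose_spec
      exact Sum.inl.inj (e1.symm.trans (h.trans e2)))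
    exact congrArg Subtype.val h1
  rcases hfp : f p with v | h
  · have hfq : f q = Sum.inl v := hpq.symm.trans hfp
    have e1 := hr2 p ⟨v, hfp⟩
    have e2 := hr2 q ⟨v, hfq⟩
    rw [← e1, ← e2]
    apply hfin
    rw [e1, e2, hpq]
  · have hfq : f q = Sum.inr h := hpq.symm.trans hfp
    obtain ⟨h1, h2⟩ := hr3 p h hfp
    obtain ⟨k1, k2⟩ := hr3 q h hfq
    have e := hfin (h2.trans k2.symm)
    rw [← e] at k1
    exact hC.uniq (ret p) p q (hC.symm _ _ h1) (hC.symm _ _ k1) hpq

end Pool.H90TC
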