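import Pool.Agent.H90.TC.Hex.Lines
import Pool.Agent.H90.TC.Hex.LocA
import Pool.Agent.H90.TC.Hex.LocB
import Pool.Agent.H90.TC.Hex.LocC
import Pool.Agent.H90.TC.Hex.LocH
import Pool.Agent.H90.TC.Hex.Sc
import Pool.Agent.H90.TC.Hex.Dist
import Pool.Agent.H90.TC.L6.LayY
import Pool.Agent.H90.TC.FSCover

set_option autoImplicit false

namespace Pool.H90TC

open Pool.H90SY

universe u

variable {V : Type u}

theorem hex_loc6 {G : SimpleGraph V} {col : V → Fin 3} (hT : Tri G col) (hX : HexLoc G col) :
    Loc6 (hexG G col) where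
  c4 := by
    rintro (z | z) a b c d ha hb hc hd hab hbc hcd hda hac hbd
    · have h3 : col z = 0 ∨ col z = 1 ∨ col z = 2 := by
        have := (col z).isLt
        omega
      rcases h3 with h | h | h
      · exact locA4 hT hX z h a b c d ha hb hc hd hab hbc hcd hda hac hbd
      · exact locB4 hT hX z h a b c d ha hb hc hd hab hbc hcd hda hac hbd
      · exact locC4 hT hX z h a b c d ha hb hc hd hab hbc hcd hda hac hbd
    · exact locH4 hT hX z a b c d ha hb hc hd hab hbc hcd hda hac hbd
  c5 := by
    rintro (z | z) a b c d e ha hb hc hd he hab hbc hcd hde hea hac had hbd hbe hce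
    · have h3 : col z = 0 ∨ col z = 1 ∨ col z = 2 := by
        have := (col z).isLt
        omega
      rcases h3 with h | h | h
      · exact locA5 hT hX z h a b c d e ha hb hc hd he hab hbc hcd hde hea hac had hbd hbe hce
      · exact locB5 hT hX z h a b c d e ha hb hc hd he hab hbc hcd hde hea hac had hbd hbe hce
      · exact locC5 hT hX z h a b c d e ha hb hc hd he hab hbc hcd hde hea hac had hbd hbe hce
    · exact locH5 hT hX z a b c d e ha hb hc hd he hab hbc hcd hde hea hac had hbd hbe hce

/-- complexes of type (2,3,6) -/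
theorem hex_cover {G : SimpleGraph V} {col : V → Fin 3} (hT : Tri G col) (hX : HexLoc G col)
    (hc : G.Connected) (hs : ScInj G) : ∀ R : ℕ, 1 ≤ R → CoverAt G.dist 2 R (168 * R) := by
  intro R hR
  have hc' := hex_conn hT hc
  obtain ⟨x0⟩ := hc'.nonempty
  have hlay := lay6_of_sc (hexG G col) hc' (hex_loc6 hT hX) (hex_scInj hT hs) x0
  obtain ⟨S⟩ := fs_of_lines (hex_lines hT hX) hlay (hex_loc6 hT hX)
  refine cover_pull (Sum.inl : V → HV G col) G.dist (hexG G col).dist 2 R (168 * R) (2 * R)
    (84 * (2 * R)) ?_ ?_ (S.cover (2 * R) (by omega))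
  · intro x y h
    have := hex_dist_le hT hc x y
    omega
  · intro x y h
    have := le_hex_dist hT hc x y
    omega

end Pool.H90TC
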